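import Pool.Agent.H429R2.GP.LogC

/-!
Versions with a single logarithm, for the trivial character: the decay of `X` up to the line
`Re s = 3/2`.
-/

open Complex Filter Topology Set Metric MeasureTheory

namespace H429.GS

open H370.DL H429.GP

theorem logDeriv_Gammaℝ_shift {z : ℂ} (hz : z.im ≠ 0) :
    logDeriv Gammaℝ z = logDeriv Gammaℝ (z + 2) - 1 / z := by
  have hz0 : z ≠ 0 := by
    intro h
    rw [h] at hz
    simp at hz
  have hne : ∀ w : ℂ, w.im ≠ 0 → Gammaℝ w ≠ 0 := by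
    intro w hw
    rw [Ne, Gammaℝ_eq_zero_iff]
    rintro ⟨n, hn⟩
    apply hw
    rw [hn]
    simp
  have hd : ∀ w : ℂ, w.im ≠ 0 → DifferentiableAt ℂ Gammaℝ w := by
    intro w hw
    have h1 : DifferentiableAt ℂ (fun s : ℂ => (Gammaℝ s)⁻¹) w :=
      differentiable_Gammaℝ_inv w
    have h2 := h1.inv (inv_ne_zero (hne w hw))
    have e : (fun s : ℂ => (Gammaℝ s)⁻¹)⁻¹ = Gammaℝ := by
      funext s
      simp
    rwa [e] at h2
  have hev : (fun s : ℂ => Gammaℝ (s + 2)) =ᶠ[𝓝 z] fun s => Gammaℝ s * s / 2 / Real.pi := by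
    have h1 : ∀ᶠ s in 𝓝 z, s ≠ 0 := isOpen_ne.mem_nhds hz0
    filter_upwards [h1] with s hs
    exact Gammaℝ_add_two hs
  have h2 : (z + 2).im ≠ 0 := by simpa using hz
  have hL : logDeriv (fun s : ℂ => Gammaℝ (s + 2)) z = logDeriv Gammaℝ (z + 2) := by
    rw [logDeriv_apply, logDeriv_apply, deriv_comp_add_const]
  have hR : logDeriv (fun s : ℂ => Gammaℝ s * s / 2 / Real.pi) z = logDeriv Gammaℝ z + 1 / z := by
    have e : (fun s : ℂ => Gammaℝ s * s / 2 / Real.pi) =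
        fun s => (1 / 2 / (Real.pi : ℂ)) * (Gammaℝ s * s) := by
      funext s; ring
    rw [e, logDeriv_const_mul _ _ (by
      apply div_ne_zero (by norm_num)
      exact_mod_cast Real.pi_ne_zero)]
    rw [logDeriv_mul (f := Gammaℝ) (g := fun s => s) z (hne z hz) hz0 (hd z hz)
      differentiableAt_id]
    congr 1
    rw [logDeriv_apply]
    simp
  have h3 : logDeriv (fun s : ℂ => Gammaℝ (s + 2)) z =
      logDeriv (fun s : ℂ => Gammaℝ s * s / 2 / Real.pi) z := by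
    rw [logDeriv_apply, logDeriv_apply, hev.deriv_eq, hev.eq_of_nhds]
  rw [hL, hR] at h3
  rw [h3]
  ring

theorem re_logDeriv_Gammaℝ2 : ∃ C : ℝ, 0 ≤ C ∧ ∀ z : ℂ, -(1 / 2) ≤ z.re → z.re ≤ 2 → 1 ≤ |z.im| →
    1 / 2 * Real.log (1 + |z.im|) - C ≤ (logDeriv Gammaℝ z).re := by
  obtain ⟨C1, hC10, hC1⟩ := re_logDeriv_Gammaℝ1
  refine ⟨C1 + 1, by positivity, ?_⟩
  intro z hz1 hz2 h
  rcases le_or_gt 0 z.re with h0 | h0
  · have := hC1 z h0 hz2 h
    linarith
  · have hne : z.im ≠ 0 := by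
      intro h1
      rw [h1, abs_zero] at h
      linarith
    rw [logDeriv_Gammaℝ_shift hne]
    have h1 := hC1 (z + 2) (by rw [add_re]; norm_num; linarith) (by rw [add_re]; norm_num; linarith)
      (by simpa using h)
    have him : (z + 2).im = z.im := by simp
    rw [him] at h1
    have h2 : (1 / z).re ≤ 1 := by
      refine (re_le_norm _).trans ?_
      rw [norm_div, norm_one]
      have h3 : 1 ≤ ‖z‖ := h.trans (abs_im_le_norm z)
      rw [div_le_one (by linarith)]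
      exact h3
    rw [sub_re]
    linarith

/-- decay to the right of the critical line, away from the real axis -/
theorem XX_decay2 : ∃ C : ℝ, 0 ≤ C ∧
    ∀ (q : ℕ) [NeZero q] (χ : DirichletCharacter ℂ q), χ.IsPrimitive → (aa χ).re = 0 →
      ∀ x y : ℝ, 0 ≤ x → x ≤ 1 → 1 ≤ |y| →
      ‖XX χ ⟨1 / 2 + x, y⟩‖ ≤ Real.exp (-x * (Real.log (q * (1 + |y|)) - C)) := by
  obtain ⟨C, hC0, hC⟩ := re_logDeriv_Gammaℝ2
  refine ⟨2 * C, by positivity, ?_⟩
  intro q _ χ hχ haa x y hx0 hx1 hy1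
  have hq := one_le_q q
  have hyne : y ≠ 0 := by
    intro h
    rw [h, abs_zero] at hy1
    linarith
  have hoff : y ≠ 0 →
      ‖XX χ ⟨1 / 2 + x, y⟩‖ ≤ Real.exp (-x * (Real.log (q * (1 + |y|)) - 2 * C)) := by
    intro hy
    set μ : ℝ := Real.log (q * (1 + |y|)) - 2 * C with hμ
    set φ : ℝ → ℂ := fun x => XX χ ⟨1 / 2 + x, y⟩ with hφ
    set N : ℝ → ℝ := fun x => ‖φ x‖ ^ 2 * Real.exp (2 * μ * x) with hN
    have hder : ∀ x : ℝ, 0 ≤ x → x ≤ 1 →
        HasDerivAt φ (φ x * logDeriv (XX χ) ⟨1 / 2 + x, y⟩) x := by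
      intro x h0 h1
      have ha : AnalyticAt ℂ (XX χ) ⟨1 / 2 + x, y⟩ :=
        analyticAt_XX hy
      have h2 : HasDerivAt (fun x : ℝ => (⟨1 / 2 + x, y⟩ : ℂ)) 1 x := by
        have e : (fun x : ℝ => (⟨1 / 2 + x, y⟩ : ℂ)) = fun x : ℝ => (x : ℂ) + (1 / 2 + y * I) := by
          funext x
          apply Complex.ext <;> simp
          ring
        rw [e]
        exact (ofRealCLM.hasDerivAt (x := x)).add_const _
      have h3 := HasDerivAt.comp x ha.differentiableAt.hasDerivAt h2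
      have hne := XX_ne_zero hχ (s := ⟨1 / 2 + x, y⟩) hy
      have h4 : deriv (XX χ) ⟨1 / 2 + x, y⟩ * 1 = φ x * logDeriv (XX χ) ⟨1 / 2 + x, y⟩ := by
        rw [logDeriv_apply, mul_one]
        exact (mul_div_cancel₀ _ hne).symm
      rw [h4] at h3
      exact h3
    have hre : ∀ x : ℝ, 0 ≤ x → x ≤ 1 →
        (logDeriv (XX χ) ⟨1 / 2 + x, y⟩).re ≤ -μ := by
      intro x h0 h1
      rw [logDeriv_XX hχ hy]
      have ha0 := aa_re_nonneg (χ := χ)
      have ha1 := aa_re_le (χ := χ)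
      have b1 := hC (1 - ⟨1 / 2 + x, y⟩ + aa χ)
        (by rw [add_re, sub_re, one_re]; simp only; linarith)
        (by rw [add_re, sub_re, one_re]; simp only; linarith)
        (by simpa [aa_im] using hy1)
      have b2 := hC (⟨1 / 2 + x, y⟩ + aa χ) (by rw [add_re]; simp only; linarith)
        (by rw [add_re]; simp only; linarith) (by simpa [aa_im] using hy1)
      have i1 : |((1 : ℂ) - ⟨1 / 2 + x, y⟩ + aa χ).im| = |y| := by
        simp [aa_im]
      have i2 : |((⟨1 / 2 + x, y⟩ : ℂ) + aa χ).im| = |y| := by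
        simp [aa_im]
      rw [i1] at b1
      rw [i2] at b2
      rw [sub_re, sub_re, neg_re, ofReal_re, hμ, Real.log_mul (by linarith) (by positivity)]
      linarith
    have hNd : ∀ x : ℝ, 0 ≤ x → x ≤ 1 → ∃ d : ℝ, d ≤ 0 ∧ HasDerivAt N d x := by
      intro x h0 h1
      have h2 := (hder x h0 h1).norm_sq
      have h3 : HasDerivAt (fun x : ℝ => Real.exp (2 * μ * x)) (Real.exp (2 * μ * x) * (2 * μ)) x := by
        have := ((hasDerivAt_id x).const_mul (2 * μ)).exp
        simpa using this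
      refine ⟨_, ?_, h2.mul h3⟩
      have h4 : @inner ℝ ℂ _ (φ x) (φ x * logDeriv (XX χ) ⟨1 / 2 + x, y⟩) =
          ‖φ x‖ ^ 2 * (logDeriv (XX χ) ⟨1 / 2 + x, y⟩).re := by
        rw [Complex.inner]
        have : (φ x * logDeriv (XX χ) ⟨1 / 2 + x, y⟩) * (starRingEnd ℂ) (φ x) =
            ((‖φ x‖ ^ 2 : ℝ) : ℂ) * logDeriv (XX χ) ⟨1 / 2 + x, y⟩ := by
          rw [← normSq_eq_norm_sq, ← mul_conj]
          ring
        rw [this, re_ofReal_mul]
      rw [h4]
      have h5 := hre x h0 h1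
      have h6 : 0 ≤ ‖φ x‖ ^ 2 := by positivity
      have h7 : 0 < Real.exp (2 * μ * x) := Real.exp_pos _
      have h8 : 2 * (‖φ x‖ ^ 2 * (logDeriv (XX χ) ⟨1 / 2 + x, y⟩).re) * Real.exp (2 * μ * x) +
          ‖φ x‖ ^ 2 * (Real.exp (2 * μ * x) * (2 * μ)) =
          2 * ‖φ x‖ ^ 2 * Real.exp (2 * μ * x) * ((logDeriv (XX χ) ⟨1 / 2 + x, y⟩).re + μ) := by
        ring
      rw [h8]
      exact mul_nonpos_of_nonneg_of_nonpos (by positivity) (by linarith)
    have hanti : AntitoneOn N (Icc 0 1) := by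
      apply antitoneOn_of_deriv_nonpos (convex_Icc _ _)
      · intro x hx
        obtain ⟨d, -, hd⟩ := hNd x hx.1 hx.2
        exact hd.continuousAt.continuousWithinAt
      · intro x hx
        rw [interior_Icc] at hx
        obtain ⟨d, -, hd⟩ := hNd x hx.1.le hx.2.le
        exact hd.differentiableAt.differentiableWithinAt
      · intro x hx
        rw [interior_Icc] at hx
        obtain ⟨d, hd0, hd⟩ := hNd x hx.1.le hx.2.le
        rw [hd.deriv]
        exact hd0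
    have h1 := hanti (left_mem_Icc.mpr (by linarith)) ⟨hx0, hx1⟩ hx0
    simp only [hN, hφ] at h1
    rw [mul_zero, Real.exp_zero, mul_one, add_zero, norm_XX_line hχ, one_pow] at h1
    have h2 : Real.exp (-x * μ) ^ 2 * Real.exp (2 * μ * x) = 1 := by
      rw [← Real.exp_nat_mul, ← Real.exp_add]
      rw [Real.exp_eq_one_iff]
      push_cast
      ring
    have h3 : 0 < Real.exp (2 * μ * x) := Real.exp_pos _
    have h4 : ‖XX χ ⟨1 / 2 + x, y⟩‖ ^ 2 ≤ Real.exp (-x * μ) ^ 2 := by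
      exact le_of_mul_le_mul_right (h1.trans h2.symm.le) h3
    exact (sq_le_sq₀ (norm_nonneg _) (Real.exp_pos _).le).mp h4
  exact hoff hyne


end H429.GS
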