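import Pool.Agent.H429R5.GS.A

/-!
Versions with a single logarithm: the bottom edge up to the line `Re s = 3/2`.
-/

open Complex Filter Topology Set Metric MeasureTheory

namespace H429.GS

open H370.DL H429.GP

theorem exists_bot2 {q : ℕ} [NeZero q] {χ : DirichletCharacter ℂ q} (hχ : χ.IsPrimitive)
    {cX : ℝ}
    (hcX : ∀ x y : ℝ, 0 ≤ x → x ≤ 1 → 1 ≤ |y| →
      ‖XX χ ⟨1 / 2 + x, y⟩‖ ≤ Real.exp (-x * (Real.log (q * (1 + |y|)) - cX)))
    {ω : ℂ} (hω : ‖ω‖ = 1) {s : ℝ} (hs : s = 1 ∨ s = -1) {Q : ℝ} (hQ : Real.exp (cX + 1) ≤ Q) (hQ1 : 1 ≤ Q) :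
    ∃ y1 : ℝ, Q ≤ y1 ∧ y1 ≤ Q + 1 ∧ ∃ c : ℝ, 0 < c ∧ BotOK q χ ω 1 s y1 c := by
  obtain ⟨y1, h1, h2, h3⟩ := exists_height1 (fun x y h0 h1 h2 => hcX x y h0 (by linarith) h2) hω hs hQ hQ1
  have hQ0 : 0 < Q := lt_of_lt_of_le (Real.exp_pos _) hQ
  refine ⟨y1, h1, h2, ?_⟩
  have hss : s * s = 1 := by rcases hs with h | h <;> rw [h] <;> norm_num
  have habs : |s * y1| = y1 := by
    rcases hs with h | h
    · rw [h, one_mul, abs_of_pos (by linarith)]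
    · rw [h, neg_one_mul, abs_neg, abs_of_pos (by linarith)]
  have hq := one_le_q q
  have hlog : cX + 1 ≤ Real.log (q * (1 + |s * y1|)) := by
    rw [Real.le_log_iff_exp_le (by positivity), habs]
    nlinarith
  have hXn : ∀ x : ℝ, 0 ≤ x → x ≤ 1 → ‖XX χ ⟨1 / 2 + x, s * y1⟩‖ ≤ Real.exp (-x) := by
    intro x hx0 hx1
    refine (hcX x (s * y1) hx0 hx1 (by rw [habs]; linarith)).trans ?_
    apply Real.exp_le_exp.mpr
    nlinarith
  set G : ℝ × ℝ → ℝ := fun v => ‖1 - (v.2 : ℂ) * ((starRingEnd ℂ) ω ^ 2 *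
    XX χ ⟨1 / 2 + v.1, s * y1⟩)‖ with hG
  set K : Set (ℝ × ℝ) := Icc 0 1 ×ˢ Icc 0 1 with hK
  have hKc : IsCompact K := isCompact_Icc.prod isCompact_Icc
  have hKne : K.Nonempty := ⟨(0, 0), ⟨left_mem_Icc.mpr (by linarith), left_mem_Icc.mpr zero_le_one⟩⟩
  have hGc : ContinuousOn G K := by
    have h4 : ContinuousOn (fun v : ℝ × ℝ => XX χ ⟨1 / 2 + v.1, s * y1⟩) K := by
      intro v hv
      have hv1 : 0 ≤ v.1 ∧ v.1 ≤ 1 := hv.1
      have hc : Continuous (fun v : ℝ × ℝ => (⟨1 / 2 + v.1, s * y1⟩ : ℂ)) := by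
        have : (fun v : ℝ × ℝ => (⟨1 / 2 + v.1, s * y1⟩ : ℂ)) =
            fun v : ℝ × ℝ => ((1 / 2 + v.1 : ℝ) : ℂ) + ((s * y1 : ℝ) : ℂ) * I := by
          funext v
          apply Complex.ext <;> simp
        rw [this]
        fun_prop
      exact (ContinuousAt.comp (g := XX χ) (f := fun v : ℝ × ℝ => (⟨1 / 2 + v.1, s * y1⟩ : ℂ))
        (analyticAt_XX (by
          simp only
          rcases hs with h | h
          · rw [h, one_mul]; exact (by linarith : 0 < y1).ne'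
          · rw [h, neg_one_mul]; exact (by linarith : -y1 < 0).ne)).continuousAt
        hc.continuousAt).continuousWithinAt
    have h5 : ContinuousOn (fun v : ℝ × ℝ => (v.2 : ℂ)) K := by fun_prop
    exact (continuousOn_const.sub (h5.mul (continuousOn_const.mul h4))).norm
  obtain ⟨v0, hv0, hmin⟩ := hKc.exists_isMinOn hKne hGc
  refine ⟨G v0, ?_, ?_⟩
  · simp only [hG]
    rw [norm_pos_iff]
    intro h
    have hv1 : 0 ≤ v0.1 ∧ v0.1 ≤ 1 := hv0.1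
    have hv2 : 0 ≤ v0.2 ∧ v0.2 ≤ 1 := hv0.2
    have h4 : (v0.2 : ℂ) * ((starRingEnd ℂ) ω ^ 2 * XX χ ⟨1 / 2 + v0.1, s * y1⟩) = 1 :=
      (sub_eq_zero.mp h).symm
    have h5 := congrArg norm h4
    rw [norm_mul, norm_mul, norm_pow, RCLike.norm_conj, hω, one_pow, one_mul, norm_one, norm_real,
      Real.norm_eq_abs, abs_of_nonneg hv2.1] at h5
    have h6 := hXn v0.1 hv1.1 hv1.2
    have h7 : v0.1 = 0 := by
      by_contra hne
      have h8 : 0 < v0.1 := lt_of_le_of_ne hv1.1 (Ne.symm hne)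
      have h9 : Real.exp (-v0.1) < 1 := by rw [Real.exp_lt_one_iff]; linarith
      nlinarith [norm_nonneg (XX χ ⟨1 / 2 + v0.1, s * y1⟩)]
    rw [h7, add_zero, norm_XX_line hχ, mul_one] at h5
    rw [h7, add_zero, h5, ofReal_one, one_mul] at h4
    apply h3
    have h8 : ω * (starRingEnd ℂ) ω = 1 := by
      rw [mul_conj, normSq_eq_norm_sq, hω]; simp
    calc XX χ ⟨1 / 2, s * y1⟩ = (ω * (starRingEnd ℂ) ω) ^ 2 * XX χ ⟨1 / 2, s * y1⟩ := by
          rw [h8]; ring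
      _ = ω ^ 2 * ((starRingEnd ℂ) ω ^ 2 * XX χ ⟨1 / 2, s * y1⟩) := by ring
      _ = ω ^ 2 := by rw [h4, mul_one]
  · intro x y r hx0 hx1 hy hr0 hr1
    have hy' : y = s * y1 := by rw [← hy, ← mul_assoc, hss, one_mul]
    rw [hy']
    exact hmin (show (x, r) ∈ K from ⟨⟨hx0, hx1⟩, ⟨hr0, hr1⟩⟩)



end H429.GS
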