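import Pool.Agent.H429R5.GS.B

/-!
Versions with a single logarithm: the local bound with right edge on the line `Re s = 3/2`.
-/

open Complex Filter Topology Set Metric MeasureTheory

namespace H429.GS

open H370.DL H429.GP

theorem half_add2 (z : ℂ) : (1 / 2 : ℂ) + 2 * z = ⟨1 / 2 + 2 * z.re, 2 * z.im⟩ := by
  apply Complex.ext <;> simp

theorem app_local2 {q : ℕ} [NeZero q] {χ : DirichletCharacter ℂ q} {cX G : ℝ} (hG : 1 ≤ G)
    {s y1 : ℝ} (hy1 : 0 < y1) (hcX : ∀ x y : ℝ, 0 ≤ x → x ≤ 1 → y1 ≤ s * y →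
      ‖XX χ ⟨1 / 2 + x, y⟩‖ ≤ Real.exp (-x * (Real.log (q * (1 + |y|)) - cX)))
    (hgrow : ∀ x y : ℝ, 0 ≤ x → x ≤ 1 → y1 ≤ s * y →
      ‖DirichletCharacter.LFunction χ ⟨1 / 2 + x, y⟩‖ ≤ G * (1 + |y|))
    (hχ : χ.IsPrimitive) {ω : ℂ} (hω : ‖ω‖ = 1)
    (hbig : ∀ y : ℝ, y1 ≤ s * y → cX + 1 ≤ Real.log (q * (1 + |y|)))
    {B F0 c t0 δ : ℝ} (hB : 0 ≤ B) (hF0 : 0 < F0) (hc : 0 < c)
    (hgram : ∀ y : ℝ, XX χ ⟨1 / 2, y⟩ = ω ^ 2 →
      0 ≤ ((starRingEnd ℂ) ω * DirichletCharacter.LFunction χ ⟨1 / 2, y⟩).re *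
        Real.exp (-(y - t0) ^ 2) + B * Real.exp (-(y - t0) ^ 2 / 2))
    (hFside : ∀ y : ℝ, y1 ≤ s * y → ‖DirichletCharacter.LFunction χ ⟨3 / 2, y⟩‖ *
      Real.exp (1 - (y - t0) ^ 2) ≤ F0)
    (hFbot : ∀ x y : ℝ, 0 ≤ x → x ≤ 1 → s * y = y1 →
      ‖DirichletCharacter.LFunction χ ⟨1 / 2 + x, y⟩‖ * Real.exp 1 ≤ F0)
    (hcside : c ≤ 1 - Real.exp (-1))
    (hcbot : ∀ x y r : ℝ, 0 ≤ x → x ≤ 1 → s * y = y1 → 0 ≤ r → r ≤ 1 →
      c ≤ ‖1 - r * ((starRingEnd ℂ) ω ^ 2 * XX χ ⟨1 / 2 + x, y⟩)‖)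
    (hδ : 0 < δ) (hδ' : δ < 1) (ht0 : ∀ y : ℝ, |y - t0| ≤ 2 → y1 < s * y) :
    ‖DirichletCharacter.LFunction χ ⟨1 / 2 + δ, t0⟩‖ ≤
      52 * ((F0 + 4 * B) / c) / (δ / 2) + 2 * B := by
  set b : ℝ := 1 / 2 with hb
  set V : Set ℝ := {y | y1 < s * (2 * y)} with hV
  set U : Set ℂ := Ioo 0 b ×ℂ V with hU
  have hVo : IsOpen V := isOpen_lt continuous_const (by fun_prop)
  have hUo : IsOpen U := isOpen_Ioo.reProdIm hVo
  have hVcl : closure V ⊆ {y | y1 ≤ s * (2 * y)} :=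
    closure_minimal (fun y (hy : y1 < s * (2 * y)) => (show y1 ≤ s * (2 * y) from hy.le))
      (isClosed_le continuous_const (by fun_prop))
  have hb0 : 0 < b := by rw [hb]; norm_num
  have hclU : closure U = Icc 0 b ×ℂ closure V := by
    rw [hU, closure_reProdIm, closure_Ioo hb0.ne]
  have hcl : ∀ z ∈ closure U, 0 ≤ z.re ∧ z.re ≤ b ∧ y1 ≤ s * (2 * z.im) := by
    intro z hz
    rw [hclU, mem_reProdIm] at hz
    exact ⟨hz.1.1, hz.1.2, hVcl hz.2⟩
  have hx : ∀ z ∈ closure U, 0 ≤ 2 * z.re ∧ 2 * z.re ≤ 1 := by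
    intro z hz
    obtain ⟨h1, h2, -⟩ := hcl z hz
    rw [hb] at h2
    constructor <;> linarith
  have him : ∀ z ∈ closure U, 2 * z.im ≠ 0 := by
    intro z hz h
    obtain ⟨-, -, h3⟩ := hcl z hz
    rw [h, mul_zero] at h3
    linarith
  set A : Set ℂ := closure U ∩ {z | z.re = 0} with hA
  set D : Set ℂ := closure U ∩ {z | z.re = b ∨ s * (2 * z.im) = y1} with hD
  have hAcl : IsClosed A :=
    isClosed_closure.inter (isClosed_eq continuous_re continuous_const)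
  have hfr : frontier U ⊆ A ∪ D := by
    intro z hz
    rw [hUo.frontier_eq] at hz
    obtain ⟨h1, h2, h3⟩ := hcl z hz.1
    by_cases h4 : z.re = 0
    · exact Or.inl ⟨hz.1, h4⟩
    · right
      refine ⟨hz.1, ?_⟩
      by_contra hcon
      simp only [Set.mem_ofPred_eq, not_or] at hcon
      apply hz.2
      rw [hU, mem_reProdIm]
      exact ⟨⟨lt_of_le_of_ne h1 (Ne.symm h4), lt_of_le_of_ne h2 hcon.1⟩,
        lt_of_le_of_ne h3 (Ne.symm hcon.2)⟩
  set p : ℂ := ⟨0, t0⟩ with hp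
  set w : ℂ := (starRingEnd ℂ) ω with hw
  have hwn : ‖w‖ = 1 := by rw [hw, RCLike.norm_conj, hω]
  have hww : w * (starRingEnd ℂ) w = 1 := by
    rw [mul_conj, normSq_eq_norm_sq, hwn]; simp
  set f : ℂ → ℂ := fun z => w * DirichletCharacter.LFunction χ (1 / 2 + 2 * z) *
    cexp ((2 * z - p) ^ 2) with hf
  set X : ℂ → ℂ := fun z => w ^ 2 * XX χ (1 / 2 + 2 * z) with hX
  set g : ℂ → ℂ := fun z => cexp ((2 * z - p) ^ 2 / 2) with hg
  have hfd : DiffContOnCl ℂ f U := by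
    apply DifferentiableOn.diffContOnCl
    intro z hz
    apply DifferentiableAt.differentiableWithinAt
    have h3 : (1 / 2 : ℂ) + 2 * z ≠ 1 := by
      rw [half_add2]
      intro h
      have := congrArg im h
      simp only [one_im] at this
      exact him z hz this
    have h4 : DifferentiableAt ℂ (fun z => DirichletCharacter.LFunction χ (1 / 2 + 2 * z)) z :=
      DifferentiableAt.comp (g := DirichletCharacter.LFunction χ)
        (f := fun z : ℂ => 1 / 2 + 2 * z) z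
        (analyticAt_L h3).differentiableAt (by fun_prop)
    exact (h4.const_mul w).mul (by fun_prop)
  have hXd : DiffContOnCl ℂ X U := by
    apply DifferentiableOn.diffContOnCl
    intro z hz
    apply DifferentiableAt.differentiableWithinAt
    have h4 : DifferentiableAt ℂ (fun z => XX χ (1 / 2 + 2 * z)) z :=
      DifferentiableAt.comp (g := XX χ) (f := fun z : ℂ => 1 / 2 + 2 * z) z
        (analyticAt_XX (by rw [half_add2]; exact him z hz)).differentiableAt (by fun_prop)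
    exact h4.const_mul (w ^ 2)
  have hgd : DiffContOnCl ℂ g U := by
    have : Differentiable ℂ g := by rw [hg]; fun_prop
    exact this.diffContOnCl
  have hXn : ∀ z ∈ closure U, ‖X z‖ ≤ Real.exp (-(2 * z.re)) := by
    intro z hz
    obtain ⟨-, -, h3⟩ := hcl z hz
    obtain ⟨h1, h2⟩ := hx z hz
    simp only [hX]
    rw [norm_mul, norm_pow, hwn, one_pow, one_mul, half_add2]
    refine (hcX (2 * z.re) (2 * z.im) h1 h2 h3).trans ?_
    apply Real.exp_le_exp.mpr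
    nlinarith [hbig (2 * z.im) h3]
  have hX1 : ∀ z ∈ U, ‖X z‖ < 1 := by
    intro z hz
    refine lt_of_le_of_lt (hXn z (subset_closure hz)) ?_
    rw [Real.exp_lt_one_iff]
    have h1 : 0 < z.re := (mem_reProdIm.mp hz).1.1
    linarith
  have hXA : ∀ z ∈ A, ‖X z‖ = 1 := by
    intro z hz
    simp only [hX]
    rw [norm_mul, norm_pow, hwn, one_pow, one_mul, half_add2]
    have h1 : z.re = 0 := hz.2
    rw [h1, mul_zero, add_zero]
    exact norm_XX_line hχ _
  have hexp : ∀ z : ℂ, z.re = 0 →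
      cexp ((2 * z - p) ^ 2) = ((Real.exp (-(2 * z.im - t0) ^ 2) : ℝ) : ℂ) := by
    intro z hz
    rw [ofReal_exp]
    congr 1
    apply Complex.ext
    · simp [hp, sq, hz]
    · simp [hp, sq, hz]
  have hexp2 : ∀ z : ℂ, z.re = 0 →
      cexp ((2 * z - p) ^ 2 / 2) = ((Real.exp (-(2 * z.im - t0) ^ 2 / 2) : ℝ) : ℂ) := by
    intro z hz
    rw [ofReal_exp]
    congr 1
    have h1 : (2 * z - p) ^ 2 = ((-(2 * z.im - t0) ^ 2 : ℝ) : ℂ) := by
      apply Complex.ext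
      · simp [hp, sq, hz]
      · simp [hp, sq, hz]
    rw [h1]
    push_cast
    ring
  have hfA : ∀ z ∈ A, f z = X z * (starRingEnd ℂ) (f z) := by
    intro z hz
    have h1 : z.re = 0 := hz.2
    have h2 := func_line hχ (2 * z.im)
    simp only [hf, hX]
    rw [hexp z h1, half_add2, h1, mul_zero, add_zero, map_mul, map_mul, conj_ofReal]
    calc w * DirichletCharacter.LFunction χ ⟨1 / 2, 2 * z.im⟩ *
          ((Real.exp (-(2 * z.im - t0) ^ 2) : ℝ) : ℂ)
        = w * (XX χ ⟨1 / 2, 2 * z.im⟩ * (starRingEnd ℂ)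
          (DirichletCharacter.LFunction χ ⟨1 / 2, 2 * z.im⟩)) *
          ((Real.exp (-(2 * z.im - t0) ^ 2) : ℝ) : ℂ) := by rw [← h2]
      _ = (w * (starRingEnd ℂ) w) * w * (XX χ ⟨1 / 2, 2 * z.im⟩ * (starRingEnd ℂ)
          (DirichletCharacter.LFunction χ ⟨1 / 2, 2 * z.im⟩)) *
          ((Real.exp (-(2 * z.im - t0) ^ 2) : ℝ) : ℂ) := by rw [hww, one_mul]
      _ = _ := by ring
  have hgA : ∀ z ∈ A, 0 < (g z).re ∧ (g z).im = 0 := by
    intro z hz
    simp only [hg]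
    rw [hexp2 z hz.2, ofReal_re, ofReal_im]
    exact ⟨Real.exp_pos _, rfl⟩
  have hpos : ∀ z ∈ A, X z = 1 → 0 ≤ (f z).re + B * (g z).re := by
    intro z hz hX1
    have h1 : z.re = 0 := hz.2
    have h2 : XX χ ⟨1 / 2, 2 * z.im⟩ = ω ^ 2 := by
      simp only [hX] at hX1
      rw [half_add2, h1, mul_zero, add_zero] at hX1
      have h3 : ω * w = 1 := by
        rw [hw, mul_conj, normSq_eq_norm_sq, hω]; simp
      calc XX χ ⟨1 / 2, 2 * z.im⟩ = (ω * w) ^ 2 * XX χ ⟨1 / 2, 2 * z.im⟩ := by rw [h3]; ring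
        _ = ω ^ 2 * (w ^ 2 * XX χ ⟨1 / 2, 2 * z.im⟩) := by ring
        _ = ω ^ 2 := by rw [hX1, mul_one]
    have h3 := hgram (2 * z.im) h2
    simp only [hf, hg]
    rw [hexp z h1, hexp2 z h1, half_add2, h1, mul_zero, add_zero, re_mul_ofReal, ofReal_re]
    exact h3
  -- growth
  have hLb : ∀ z ∈ closure U, ‖DirichletCharacter.LFunction χ (1 / 2 + 2 * z)‖ ≤
      G * (1 + |2 * z.im|) := by
    intro z hz
    obtain ⟨-, -, h3⟩ := hcl z hz
    obtain ⟨h1, h2⟩ := hx z hz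
    rw [half_add2]
    exact hgrow _ _ h1 h2 h3
  have hfn : ∀ z : ℂ, ‖f z‖ = ‖DirichletCharacter.LFunction χ (1 / 2 + 2 * z)‖ *
      Real.exp ((2 * z.re) ^ 2 - (2 * z.im - t0) ^ 2) := by
    intro z
    simp only [hf]
    rw [norm_mul, norm_mul, hwn, one_mul, norm_gauss]
    simp [hp]
  have hgn : ∀ z : ℂ, ‖g z‖ = Real.exp (((2 * z.re) ^ 2 - (2 * z.im - t0) ^ 2) / 2) := by
    intro z
    simp only [hg]
    rw [norm_exp]
    congr 1
    have : ((2 * z - p) ^ 2 / 2).re = ((2 * z - p) ^ 2).re / 2 := by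
      have h2 : (2 : ℂ) = ((2 : ℝ) : ℂ) := by push_cast; rfl
      conv_lhs => rw [show ((2 * z - p) ^ 2 / 2 : ℂ) = (2 * z - p) ^ 2 / ((2 : ℝ) : ℂ) by
        rw [← h2]]
      rw [div_ofReal_re]
    rw [this, sq, mul_re]
    have e1 : (2 * z - p).re = 2 * z.re := by simp [hp]
    have e2 : (2 * z - p).im = 2 * z.im - t0 := by simp [hp]
    rw [e1, e2]
    ring
  have hresq : ∀ z ∈ closure U, (2 * z.re) ^ 2 ≤ 1 := by
    intro z hz
    obtain ⟨h1, h2⟩ := hx z hz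
    nlinarith
  have hRim : ∀ (R : ℝ) (z : ℂ), z ∈ closure U → |R| + 1 ≤ ‖z‖ → R ≤ |2 * z.im| := by
    intro R z hz h
    obtain ⟨h1, h2, -⟩ := hcl z hz
    have h3 := norm_le_abs_re_add_abs_im z
    rw [abs_of_nonneg h1] at h3
    rw [abs_mul, abs_two]
    have h4 : b ≤ 1 := by rw [hb]; norm_num
    linarith [le_abs_self R, abs_nonneg z.im]
  have hE1 : Real.exp 1 ≤ 3 := by linarith [Real.exp_one_lt_d9]
  have hdecay : ∀ ε > 0, ∃ R : ℝ, ∀ z ∈ closure U, R ≤ ‖z‖ → ‖f z‖ ≤ ε ∧ ‖g z‖ ≤ ε := by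
    intro ε hε
    obtain ⟨R, hR⟩ := poly_gauss_small t0 (G * 3) ε hε
    refine ⟨|R| + 1, fun z hz hRz => ?_⟩
    have h1 := hR (2 * z.im) (hRim R z hz hRz)
    have h2 := hresq z hz
    constructor
    · refine le_trans ?_ h1
      rw [hfn]
      calc _ ≤ (G * (1 + |2 * z.im|)) *
            (Real.exp 1 * Real.exp (-(2 * z.im - t0) ^ 2 / 2)) := by
            apply mul_le_mul (hLb z hz) _ (Real.exp_pos _).le (by positivity)
            rw [← Real.exp_add]
            apply Real.exp_le_exp.mpr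
            nlinarith [sq_nonneg (2 * z.im - t0)]
        _ ≤ (G * (1 + |2 * z.im|)) *
            (3 * Real.exp (-(2 * z.im - t0) ^ 2 / 2)) := by gcongr
        _ = _ := by ring
    · refine le_trans ?_ h1
      rw [hgn]
      have h5 : Real.exp (((2 * z.re) ^ 2 - (2 * z.im - t0) ^ 2) / 2) ≤
          3 * Real.exp (-(2 * z.im - t0) ^ 2 / 2) := by
        calc _ ≤ Real.exp 1 * Real.exp (-(2 * z.im - t0) ^ 2 / 2) := by
              rw [← Real.exp_add]
              apply Real.exp_le_exp.mpr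
              nlinarith [sq_nonneg (2 * z.re)]
          _ ≤ _ := by gcongr
      refine h5.trans ?_
      apply mul_le_mul_of_nonneg_right _ (Real.exp_pos _).le
      have h7 : 0 ≤ |2 * z.im| := abs_nonneg _
      nlinarith
  have hratio : ∀ ε > 0, ∃ R : ℝ, ∀ z ∈ A, R ≤ ‖z‖ → ‖f z‖ ≤ ε * (g z).re := by
    intro ε hε
    obtain ⟨R, hR⟩ := poly_gauss_small t0 G ε hε
    refine ⟨|R| + 1, fun z hz hRz => ?_⟩
    have h1 := hR (2 * z.im) (hRim R z hz.1 hRz)
    have h0 : z.re = 0 := hz.2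
    rw [hfn, h0]
    simp only [hg]
    rw [hexp2 z h0, ofReal_re]
    calc _ ≤ (G * (1 + |2 * z.im|)) * (Real.exp (-(2 * z.im - t0) ^ 2 / 2) *
          Real.exp (-(2 * z.im - t0) ^ 2 / 2)) := by
          apply mul_le_mul (hLb z hz.1) _ (Real.exp_pos _).le (by positivity)
          rw [← Real.exp_add]
          apply Real.exp_le_exp.mpr
          linarith
      _ = (G * (1 + |2 * z.im|) * Real.exp (-(2 * z.im - t0) ^ 2 / 2)) *
          Real.exp (-(2 * z.im - t0) ^ 2 / 2) := by ring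
      _ ≤ _ := mul_le_mul_of_nonneg_right h1 (Real.exp_pos _).le
  have hg2 : ∀ z ∈ closure U, ‖g z‖ ≤ 2 := by
    intro z hz
    rw [hgn]
    have h2 := hresq z hz
    have hE2 : Real.exp (1 / 2) ≤ 2 := by
      have := Real.exp_bound_div_one_sub_of_interval (x := 1 / 2) (by norm_num) (by norm_num)
      norm_num at this ⊢
      linarith
    refine le_trans (Real.exp_le_exp.mpr ?_) hE2
    nlinarith [sq_nonneg (2 * z.im - t0)]
  have hDb : ∀ z ∈ D, (∀ r : ℝ, 0 ≤ r → r ≤ 1 → c ≤ ‖1 - r * X z‖) ∧ ‖f z‖ ≤ F0 ∧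
      ‖g z‖ ≤ 2 := by
    intro z hz
    obtain ⟨-, -, h3⟩ := hcl z hz.1
    obtain ⟨h1, h2⟩ := hx z hz.1
    refine ⟨?_, ?_, hg2 z hz.1⟩
    · intro r hr0 hr1
      rcases hz.2 with h | h
      · have h4 := hXn z hz.1
        rw [h] at h4
        have h5 : ‖(1 : ℂ)‖ - ‖(r : ℂ) * X z‖ ≤ ‖1 - r * X z‖ := norm_sub_norm_le _ _
        rw [norm_one, norm_mul, norm_real, Real.norm_eq_abs, abs_of_nonneg hr0] at h5
        have h6 : r * ‖X z‖ ≤ Real.exp (-(2 * b)) := by nlinarith [norm_nonneg (X z)]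
        have h7 : -(2 * b) = -1 := by rw [hb]; norm_num
        rw [h7] at h6
        linarith
      · have h4 := hcbot (2 * z.re) (2 * z.im) r h1 h2 h hr0 hr1
        simp only [hX]
        rw [half_add2]
        exact h4
    · rw [hfn]
      rcases hz.2 with h | h
      · have h4 := hFside (2 * z.im) h3
        refine le_trans ?_ h4
        rw [half_add2, h]
        have h5 : (1 / 2 + 2 * b : ℝ) = 3 / 2 := by rw [hb]; norm_num
        rw [h5]
        apply mul_le_mul_of_nonneg_left _ (norm_nonneg _)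
        apply Real.exp_le_exp.mpr
        have := hresq z hz.1
        rw [h] at this
        linarith
      · have h4 := hFbot (2 * z.re) (2 * z.im) h1 h2 h
        refine le_trans ?_ h4
        rw [half_add2]
        apply mul_le_mul_of_nonneg_left _ (norm_nonneg _)
        apply Real.exp_le_exp.mpr
        have := hresq z hz.1
        nlinarith [sq_nonneg (2 * z.im - t0)]
  have hlb := local_bound hUo hAcl inter_subset_left hfr hfd hgd hXd hX1 hXA hfA hgA hB hF0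
    (by norm_num : (0 : ℝ) ≤ 2) hc hpos hdecay hratio hDb (b := b) (t0 := t0 / 2) (δ := δ / 2)
    (by rw [hb]) (by linarith) (by rw [hb]; linarith)
    (by
      intro z h1 h2 h3
      rw [hU, mem_reProdIm]
      refine ⟨⟨by linarith, h2⟩, ht0 (2 * z.im) ?_⟩
      have h4 : 2 * z.im - t0 = 2 * (z.im - t0 / 2) := by ring
      rw [h4, abs_mul, abs_two]
      linarith)
    (by
      intro z h1 h2
      have h5 : |2 * z.im - t0| ≤ 2 := by
        have h4 : 2 * z.im - t0 = 2 * (z.im - t0 / 2) := by ring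
        rw [h4, abs_mul, abs_two]
        linarith
      have h3 : z ∈ closure U := by
        rw [hclU, mem_reProdIm]
        exact ⟨⟨by linarith, by linarith⟩, subset_closure (ht0 (2 * z.im) h5)⟩
      refine ⟨⟨h3, Or.inl h1⟩, h3, lt_of_le_of_lt (hXn z h3) ?_⟩
      rw [h1, Real.exp_lt_one_iff]
      linarith)
  have h1 : ‖DirichletCharacter.LFunction χ ⟨1 / 2 + δ, t0⟩‖ ≤ ‖f ⟨δ / 2, t0 / 2⟩‖ := by
    rw [hfn, half_add2]
    simp only
    have e1 : 2 * (δ / 2) = δ := by ring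
    have e2 : 2 * (t0 / 2) = t0 := by ring
    rw [e1, e2]
    have h2 : (1 : ℝ) ≤ Real.exp (δ ^ 2 - (t0 - t0) ^ 2) := by
      apply Real.one_le_exp
      nlinarith
    nlinarith [norm_nonneg (DirichletCharacter.LFunction χ ⟨1 / 2 + δ, t0⟩)]
  have h2 : ‖g ⟨δ / 2, t0 / 2⟩‖ ≤ 2 := by
    apply hg2
    rw [hclU, mem_reProdIm]
    refine ⟨⟨by simp only; linarith, by simp only; rw [hb]; linarith⟩,
      subset_closure (ht0 (2 * (t0 / 2)) ?_)⟩
    have e2 : 2 * (t0 / 2) - t0 = 0 := by ring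
    rw [e2, abs_zero]
    norm_num
  have h3 : F0 + 2 * B * 2 = F0 + 4 * B := by ring
  rw [h3] at hlb
  have h4 : B * ‖g ⟨δ / 2, t0 / 2⟩‖ ≤ B * 2 := mul_le_mul_of_nonneg_left h2 hB
  linarith

end H429.GS
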