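import Pool.Agent.H429R5.GS.C

/-!
Versions with a single logarithm: the bound to the right of the critical line.
-/

open Complex Filter Topology Set Metric MeasureTheory

namespace H429.GS

open H370.DL H429.GP

theorem growth2 {q : ℕ} [NeZero q] {χ : DirichletCharacter ℂ q} (hχ : χ.IsPrimitive) {x y : ℝ}
    (hx0 : 0 ≤ x) (hx1 : x ≤ 1) (hy : 1 ≤ |y|) :
    ‖DirichletCharacter.LFunction χ ⟨1 / 2 + x, y⟩‖ ≤ 7 * q * (1 + |y|) := by
  obtain ⟨h, e, he, hd, hL, hb⟩ := exists_reg hχ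
  have hq := one_le_q q
  have hre : (0 : ℝ) < (⟨1 / 2 + x, y⟩ : ℂ).re := by simp only; linarith
  have hne : (⟨1 / 2 + x, y⟩ : ℂ) ≠ 1 := by
    intro h
    have h1 := congrArg im h
    simp only [one_im] at h1
    rw [h1, abs_zero] at hy
    linarith
  rw [hL _ hre hne]
  have h1 := hb _ hre
  have h2 : ‖(⟨1 / 2 + x, y⟩ : ℂ)‖ ≤ 3 / 2 * (1 + |y|) := by
    refine (norm_le_abs_re_add_abs_im _).trans ?_
    simp only
    rw [abs_of_nonneg (by linarith)]
    linarith
  have h3 : ((q : ℝ) + 1) / (⟨1 / 2 + x, y⟩ : ℂ).re ≤ 4 * q := by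
    rw [div_le_iff₀ hre]
    simp only
    nlinarith
  have h4 : ‖h ⟨1 / 2 + x, y⟩‖ ≤ 1 + 3 / 2 * (1 + |y|) * (4 * q) := by
    refine h1.trans ?_
    have := mul_le_mul h2 h3 (by positivity) (by positivity)
    linarith
  have h5 : ‖e * (1 / ((⟨1 / 2 + x, y⟩ : ℂ) - 1))‖ ≤ 1 := by
    rcases he with he | he
    · rw [he, zero_mul, norm_zero]; norm_num
    · rw [he, one_mul, norm_div, norm_one]
      have h6 := abs_im_le_norm ((⟨1 / 2 + x, y⟩ : ℂ) - 1)
      simp only [sub_im, one_im, sub_zero] at h6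
      rw [div_le_one (by linarith)]
      linarith
  have h6 : (2 : ℝ) ≤ q * (1 + |y|) := by nlinarith [abs_nonneg y]
  calc _ ≤ ‖h ⟨1 / 2 + x, y⟩‖ + ‖e * (1 / ((⟨1 / 2 + x, y⟩ : ℂ) - 1))‖ := norm_add_le _ _
    _ ≤ 1 + 3 / 2 * (1 + |y|) * (4 * q) + 1 := add_le_add h4 h5
    _ ≤ _ := by nlinarith

/-- bound slightly to the right of the critical line, without loss -/
theorem right_bound2 {q : ℕ} [NeZero q] {χ : DirichletCharacter ℂ q} (hχ : χ.IsPrimitive)
    (haa : (aa χ).re = 0) {ω : ℂ} (hω : ‖ω‖ = 1) :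
    ∃ C : ℝ, 0 < C ∧ ∀ M : ℝ, 0 ≤ M →
      ∀ t0 δ : ℝ, GramBound q χ ω t0 (2 * √(Real.log (q * (1 + |t0|)))) M → 0 < δ → δ < 1 / 4 →
        ‖DirichletCharacter.LFunction χ ⟨1 / 2 + δ, t0⟩‖ ≤ C / δ * (1 + M) := by
  obtain ⟨cX, hcX0, hcX⟩ := XX_decay2
  have hcX' := hcX q χ hχ haa
  set Q : ℝ := Real.exp (cX + 1) with hQ
  have hQ1 : 1 ≤ Q := Real.one_le_exp (by linarith)
  obtain ⟨ya, ha1, ha2, ca, hca, hba⟩ := exists_bot2 hχ hcX' hω (s := 1) (Or.inl rfl)
    (Q := Q) le_rfl hQ1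
  obtain ⟨yb, hb1, hb2, cb, hcb, hbb⟩ := exists_bot2 hχ hcX' hω (s := -1) (Or.inr rfl)
    (Q := Q) le_rfl hQ1
  have hbot : ∀ s : ℝ, (s = 1 ∨ s = -1) → ∃ y1 : ℝ, Q ≤ y1 ∧ y1 ≤ Q + 1 ∧
      BotOK q χ ω 1 s y1 (min ca cb) := by
    intro s hs
    rcases hs with h | h
    · rw [h]; exact ⟨ya, ha1, ha2, hba.mono (min_le_left _ _)⟩
    · rw [h]; exact ⟨yb, hb1, hb2, hbb.mono (min_le_right _ _)⟩
  have hE1 : Real.exp 1 ≤ 3 := by linarith [Real.exp_one_lt_d9]
  have hq := one_le_q q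
  set cs : ℝ := 1 - Real.exp (-1) with hcs
  have hcs0 : 0 < cs := by
    rw [hcs]
    have : Real.exp (-1) < 1 := by rw [Real.exp_lt_one_iff]; norm_num
    linarith
  set c : ℝ := min cs (min ca cb) with hc
  have hcpos : 0 < c := lt_min hcs0 (lt_min hca hcb)
  set Z : ℝ := ∑' n : ℕ, 1 / (n : ℝ) ^ (1 + (1 / 2 : ℝ)) with hZ
  have hZ0 : 0 ≤ Z := tsum_nonneg fun n => by positivity
  set F0 : ℝ := 3 * Z + 21 * (q * (2 + Q)) with hF0
  have hF0pos : 0 < F0 := by positivity
  set C3 : ℝ := 17 * (q * (4 + Q)) with hC3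
  have hC3pos : 0 < C3 := by positivity
  refine ⟨104 * ((F0 + 136) / c) + 68 + C3, by positivity, ?_⟩
  intro M hM t0 δ hone hδ hδ4
  set P : ℝ := q * (1 + |t0|) with hP
  have hP1 : 1 ≤ P := by rw [hP]; nlinarith [abs_nonneg t0]
  have hP0 : 0 < P := by linarith
  have hlogP : 0 ≤ Real.log P := Real.log_nonneg hP1
  set B : ℝ := M + 34 with hB
  have hBpos : 0 ≤ B := by positivity
  have hgram : ∀ y : ℝ, XX χ ⟨1 / 2, y⟩ = ω ^ 2 →
      0 ≤ ((starRingEnd ℂ) ω * DirichletCharacter.LFunction χ ⟨1 / 2, y⟩).re *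
        Real.exp (-(y - t0) ^ 2) + B * Real.exp (-(y - t0) ^ 2 / 2) := by
    intro y hy
    set u : ℝ := |y - t0| with hu
    have hu0 : 0 ≤ u := abs_nonneg _
    have hsq : (y - t0) ^ 2 = u ^ 2 := (sq_abs _).symm
    rw [hsq]
    rcases le_or_gt u (2 * √(Real.log P)) with hclose | hfar
    · have h1 := hone y hclose hy
      have h2 : Real.exp (-u ^ 2) ≤ Real.exp (-u ^ 2 / 2) := by
        apply Real.exp_le_exp.mpr
        nlinarith [sq_nonneg u]
      have h3 := mul_le_mul_of_nonneg_right h1 (Real.exp_pos (-u ^ 2)).le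
      have h4 : M * Real.exp (-u ^ 2) ≤ M * Real.exp (-u ^ 2 / 2) :=
        mul_le_mul_of_nonneg_left h2 hM
      have h5 : 0 ≤ 34 * Real.exp (-u ^ 2 / 2) := by positivity
      rw [hB]
      linarith
    · have h1 : 4 * Real.log P ≤ u ^ 2 := by
        have h2 : (2 * √(Real.log P)) ^ 2 ≤ u ^ 2 := by
          apply pow_le_pow_left₀ (by positivity) hfar.le
        rw [mul_pow, Real.sq_sqrt hlogP] at h2
        linarith
      have hη : (0 : ℝ) < 1 / 8 := by norm_num
      have hgr := growth hχ hη (s := ⟨1 / 2, y⟩) (by norm_num) (by simp only; linarith)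
      simp only at hgr
      have h2 : (q : ℝ) * (1 + |y|) ≤ P * (1 + u) := by
        have h3 : |y| ≤ |t0| + |y - t0| := by
          calc |y| = |t0 + (y - t0)| := by ring_nf
            _ ≤ _ := abs_add_le _ _
        have h4 : 1 + |y| ≤ (1 + |t0|) * (1 + u) := by
          nlinarith [abs_nonneg t0]
        calc (q : ℝ) * (1 + |y|) ≤ q * ((1 + |t0|) * (1 + u)) := by gcongr
          _ = _ := by rw [hP]; ring
      have h3 : -((9 + 1 / (1 / 8)) * (P * (1 + u))) ≤
          ((starRingEnd ℂ) ω * DirichletCharacter.LFunction χ ⟨1 / 2, y⟩).re := by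
        have e1 := (abs_le.mp (abs_re_le_norm ((starRingEnd ℂ) ω *
          DirichletCharacter.LFunction χ ⟨1 / 2, y⟩))).1
        rw [norm_mul, RCLike.norm_conj, hω, one_mul] at e1
        have e2 : (9 + 1 / (1 / 8 : ℝ)) * (q * (1 + |y|)) ≤ (9 + 1 / (1 / 8)) * (P * (1 + u)) := by
          gcongr
        linarith
      have h4 := gram_far (y := y) (t0 := t0) (q := q) (B0 := 0) hη hu0 hP0 h1 hP1 h3
      have h5 : 2 * (9 + 1 / (1 / 8 : ℝ)) = 34 := by norm_num
      rw [h5] at h4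
      have h6 : 0 ≤ M * Real.exp (-u ^ 2 / 2) := by positivity
      rw [hB]
      linarith
  rcases le_or_gt |t0| (Q + 3) with ht | ht
  · have h1 := growth hχ (η := 1 / 8) (by norm_num) (s := ⟨1 / 2 + δ, t0⟩)
      (by simp only; linarith) (by simp only; linarith)
    have h2 : (9 + 1 / (1 / 8)) * (q * (1 + |t0|)) ≤ C3 := by
      rw [hC3]
      have h3 : 1 + |t0| ≤ 4 + Q := by linarith
      have h4 : (q : ℝ) * (1 + |t0|) ≤ q * (4 + Q) := mul_le_mul_of_nonneg_left h3 (by linarith)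
      norm_num
      linarith
    have h3 : C3 ≤ C3 / δ * (1 + M) := by
      have e1 : C3 ≤ C3 / δ := by
        rw [le_div_iff₀ hδ]
        nlinarith
      have e2 : 0 < C3 / δ := by positivity
      nlinarith
    refine (h1.trans (h2.trans h3)).trans ?_
    have h5 : C3 / δ ≤ (104 * ((F0 + 136) / c) + 68 + C3) / δ := by
      gcongr
      have : 0 ≤ 104 * ((F0 + 136) / c) + 68 := by positivity
      linarith
    exact mul_le_mul_of_nonneg_right h5 (by positivity)
  · obtain ⟨s, hs1, hst⟩ : ∃ s : ℝ, (s = 1 ∨ s = -1) ∧ s * t0 = |t0| := by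
      rcases le_or_gt 0 t0 with h | h
      · exact ⟨1, Or.inl rfl, by rw [one_mul, abs_of_nonneg h]⟩
      · exact ⟨-1, Or.inr rfl, by rw [neg_one_mul, abs_of_neg h]⟩
    obtain ⟨y1, h1, h2, h3⟩ := hbot s hs1
    have habs : ∀ y : ℝ, s * y ≤ |y| := by
      intro y
      rcases hs1 with h | h
      · rw [h, one_mul]; exact le_abs_self y
      · rw [h, neg_one_mul]; exact neg_le_abs y
    have hge1 : ∀ y : ℝ, y1 ≤ s * y → 1 ≤ |y| := fun y hy =>
      hQ1.trans (h1.trans (hy.trans (habs y)))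
    have hmain := app_local2 (χ := χ) (cX := cX) (G := 7 * q) (by nlinarith) (s := s) (y1 := y1)
      (by linarith)
      (fun x y hx0 hx1 hy => hcX' x y hx0 hx1 (hge1 y hy))
      (fun x y hx0 hx1 hy => growth2 hχ hx0 hx1 (hge1 y hy)) hχ hω
      (by
        intro y hy
        have h4 : Q ≤ |y| := h1.trans (hy.trans (habs y))
        rw [Real.le_log_iff_exp_le (by positivity)]
        nlinarith [abs_nonneg y])
      hBpos hF0pos hcpos hgram
      (by
        intro y hy
        have h4 := norm_L_right (χ := χ) (η := 1 / 2) (by norm_num) (s := ⟨3 / 2, y⟩)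
          (by norm_num)
        have h5 : Real.exp (1 - (y - t0) ^ 2) ≤ 3 := by
          refine (Real.exp_le_exp.mpr ?_).trans hE1
          nlinarith [sq_nonneg (y - t0)]
        have h6 : 0 ≤ 21 * (q * (2 + Q)) := by positivity
        calc _ ≤ Z * 3 := mul_le_mul h4 h5 (Real.exp_pos _).le hZ0
          _ ≤ F0 := by rw [hF0]; linarith)
      (by
        intro x y hx0 hx1 hy
        have h4 : |y| = y1 := by
          have h5 : |s * y| = |y| := by
            rw [abs_mul]
            rcases hs1 with h | h <;> rw [h] <;> simp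
          rw [← h5, hy, abs_of_nonneg (by linarith)]
        have h6 := growth2 hχ hx0 hx1 (hge1 y (by linarith))
        rw [h4] at h6
        have h7 : 7 * (q : ℝ) * (1 + y1) ≤ 7 * (q * (2 + Q)) := by
          have e2 : (q : ℝ) * (1 + y1) ≤ q * (2 + Q) :=
            mul_le_mul_of_nonneg_left (by linarith) (by linarith)
          linarith
        calc _ ≤ (7 * (q * (2 + Q))) * 3 :=
              mul_le_mul (h6.trans h7) hE1 (Real.exp_pos _).le (by positivity)
          _ ≤ F0 := by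
            rw [hF0]
            linarith)
      (min_le_left _ _)
      (by
        intro x y r hx0 hx1 hy hr0 hr1
        exact (min_le_right _ _).trans (h3 x y r hx0 hx1 hy hr0 hr1))
      hδ (by linarith)
      (by
        intro y hy
        have h4 : s * y = s * t0 + s * (y - t0) := by ring
        have h5 : -2 ≤ s * (y - t0) := by
          have h6 := abs_le.mp hy
          rcases hs1 with h | h
          · rw [h, one_mul]; exact h6.1
          · rw [h, neg_one_mul]; linarith [h6.2]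
        rw [h4, hst]
        linarith)
    refine hmain.trans ?_
    have e1 : F0 + 4 * B ≤ (F0 + 136) * (1 + M) := by
      rw [hB]
      nlinarith
    have e2 : 52 * ((F0 + 4 * B) / c) / (δ / 2) ≤ 104 * ((F0 + 136) / c) / δ * (1 + M) := by
      have : 104 * ((F0 + 136) / c) / δ * (1 + M) =
          52 * (((F0 + 136) * (1 + M)) / c) / (δ / 2) := by
        field_simp
        ring
      rw [this]
      gcongr
    have e3 : 2 * B ≤ 68 / δ * (1 + M) := by
      have e4 : 68 / δ * (1 + M) = (68 * (1 + M)) / δ := by ring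
      rw [e4, le_div_iff₀ hδ, hB]
      nlinarith
    have e5 : 0 ≤ C3 / δ * (1 + M) := by positivity
    calc _ ≤ 104 * ((F0 + 136) / c) / δ * (1 + M) + 68 / δ * (1 + M) := add_le_add e2 e3
      _ ≤ 104 * ((F0 + 136) / c) / δ * (1 + M) + 68 / δ * (1 + M) + C3 / δ * (1 + M) := by
        linarith
      _ = _ := by ring

end H429.GS
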