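import Pool.Agent.H429R5.GS.D

/-!
Versions with a single logarithm: the value on the critical line.
-/

open Complex Filter Topology Set Metric MeasureTheory

namespace H429.GS

open H370.DL H429.GP

theorem local_transfer2 {q : ℕ} [NeZero q] {χ : DirichletCharacter ℂ q} (hχ : χ.IsPrimitive)
    (haa : (aa χ).re = 0) {ω : ℂ} (hω : ‖ω‖ = 1) :
    ∃ C : ℝ, 0 < C ∧ ∀ t M : ℝ, 0 ≤ M →
      GramBound q χ ω t (6 * √(1 + Real.log (q * (1 + |t|)))) M →
        ‖DirichletCharacter.LFunction χ ⟨1 / 2, t⟩‖ ≤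
          C * (1 + Real.log (q * (1 + |t|))) * (1 + M) := by
  obtain ⟨C, hC, hr⟩ := right_bound2 hχ haa hω
  refine ⟨3 * (34 + 2 * (16 * C + 34)), by positivity, ?_⟩
  intro t M hM hone
  have hq := one_le_q q
  set P : ℝ := q * (1 + |t|) with hP
  have hP1 : 1 ≤ P := by rw [hP]; nlinarith [abs_nonneg t]
  have hP0 : 0 < P := by linarith
  have hlogP : 0 ≤ Real.log P := Real.log_nonneg hP1
  set ℓ : ℝ := 1 + Real.log P with hℓ
  have hℓ1 : 1 ≤ ℓ := by linarith
  set δ : ℝ := 1 / (8 * ℓ) with hδ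
  have hδ0 : 0 < δ := by positivity
  have hδ8 : δ ≤ 1 / 8 := by
    rw [hδ]
    apply one_div_le_one_div_of_le (by norm_num)
    linarith
  set h : ℂ → ℂ := fun z => DirichletCharacter.LFunction χ (1 / 2 + z) with hh
  have hdc : DiffContOnCl ℂ h {z | (-(1 / 4) : ℝ) < z.re ∧ z.re < δ} := by
    have hcl : closure {z : ℂ | (-(1 / 4) : ℝ) < z.re ∧ z.re < δ} ⊆ {z | z.re < 1 / 2} := by
      have h5 : {z : ℂ | (-(1 / 4) : ℝ) < z.re ∧ z.re < δ} = re ⁻¹' (Ioo (-(1 / 4)) δ) := rfl
      rw [h5, closure_preimage_re, closure_Ioo (by linarith)]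
      intro z hz
      have : z.re ≤ δ := hz.2
      change z.re < 1 / 2
      linarith
    apply DifferentiableOn.diffContOnCl
    intro z hz
    have hz' : z.re < 1 / 2 := hcl hz
    apply DifferentiableAt.differentiableWithinAt
    have h3 : (1 / 2 : ℂ) + z ≠ 1 := by
      rw [half_add]
      intro h
      have := congrArg re h
      simp only [one_re] at this
      linarith
    exact DifferentiableAt.comp (g := DirichletCharacter.LFunction χ) (f := fun z : ℂ => 1 / 2 + z) z
        (analyticAt_L h3).differentiableAt (by fun_prop)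
  have hgr : ∀ z : ℂ, -(1 / 4) ≤ z.re → z.re ≤ δ → ‖h z‖ ≤ (17 * q) * (1 + |z.im|) := by
    intro z h1 h2
    simp only [hh]
    rw [half_add]
    have := growth hχ (η := 1 / 8) (by norm_num) (s := ⟨1 / 2 + z.re, z.im⟩)
      (by simp only; linarith) (by simp only; linarith)
    refine this.trans (le_of_eq ?_)
    simp only
    norm_num
    ring
  have habs : ∀ y : ℝ, (q : ℝ) * (1 + |y|) ≤ P * (1 + |y - t|) := by
    intro y
    have h3 : |y| ≤ |t| + |y - t| := by
      calc |y| = |t + (y - t)| := by ring_nf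
        _ ≤ _ := abs_add_le _ _
    have h4 : 1 + |y| ≤ (1 + |t|) * (1 + |y - t|) := by
      nlinarith [abs_nonneg t, abs_nonneg (y - t)]
    calc (q : ℝ) * (1 + |y|) ≤ q * ((1 + |t|) * (1 + |y - t|)) := by gcongr
      _ = _ := by rw [hP]; ring
  have hleft : ∀ y : ℝ, ‖h ⟨-(1 / 4), y⟩‖ ≤ (34 * P) * Real.exp ((y - t) ^ 2) := by
    intro y
    have h1 := hgr ⟨-(1 / 4), y⟩ (by norm_num) (by simp only; linarith)
    refine h1.trans ?_
    have h3 := one_add_le_gauss |y - t|
    rw [sq_abs] at h3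
    calc (17 * (q : ℝ)) * (1 + |y|) = 17 * (q * (1 + |y|)) := by ring
      _ ≤ 17 * (P * (2 * Real.exp ((y - t) ^ 2))) := by
          apply mul_le_mul_of_nonneg_left _ (by norm_num)
          exact (habs y).trans (mul_le_mul_of_nonneg_left h3 hP0.le)
      _ = _ := by ring
  have hright : ∀ y : ℝ, ‖h ⟨δ, y⟩‖ ≤
      ((16 * C + 34) * ℓ * (1 + M)) * Real.exp ((y - t) ^ 2) := by
    intro y
    set u : ℝ := |y - t| with hu
    have hu0 : 0 ≤ u := abs_nonneg _
    have hsq : (y - t) ^ 2 = u ^ 2 := (sq_abs _).symm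
    rw [hsq]
    have hCδ : C / δ = 8 * C * ℓ := by
      rw [hδ]; field_simp
    have hE1 : 1 ≤ Real.exp (u ^ 2) := Real.one_le_exp (by positivity)
    rcases le_or_gt u (√(2 * Real.log P)) with hclose | hfar
    · have hgy : GramBound q χ ω y (2 * √(Real.log (q * (1 + |y|)))) M := by
        intro y' hy' hX
        exact hone y' (window_aux hq hP hclose hy') hX
      have h1 := hr M hM y δ hgy hδ0 (by linarith)
      rw [hCδ] at h1
      simp only [hh]
      rw [half_add]
      simp only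
      calc _ ≤ 8 * C * ℓ * (1 + M) := h1
        _ ≤ (16 * C + 34) * ℓ * (1 + M) := by
            have e1 : 0 ≤ ℓ * (1 + M) := by positivity
            nlinarith
        _ ≤ _ := by
            have e1 : 0 ≤ (16 * C + 34) * ℓ * (1 + M) := by positivity
            exact le_mul_of_one_le_right e1 hE1
    · have h1 := hgr ⟨δ, y⟩ (by simp only; linarith) le_rfl
      have h2 : P ≤ Real.exp (u ^ 2 / 2) := by
        have e1 : 2 * Real.log P ≤ u ^ 2 := by
          have e2 : (√(2 * Real.log P)) ^ 2 ≤ u ^ 2 :=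
            pow_le_pow_left₀ (Real.sqrt_nonneg _) hfar.le 2
          rwa [Real.sq_sqrt (by positivity)] at e2
        rw [← Real.log_le_iff_le_exp hP0]
        linarith
      have h3 : 1 + u ≤ 2 * Real.exp (u ^ 2 / 2) := by
        have := Real.add_one_le_exp (u ^ 2 / 2)
        nlinarith [sq_nonneg (u - 1)]
      have h4 : P * (1 + u) ≤ 2 * Real.exp (u ^ 2) := by
        have e1 : Real.exp (u ^ 2) = Real.exp (u ^ 2 / 2) * Real.exp (u ^ 2 / 2) := by
          rw [← Real.exp_add]; congr 1; ring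
        calc P * (1 + u) ≤ Real.exp (u ^ 2 / 2) * (2 * Real.exp (u ^ 2 / 2)) := by gcongr
          _ = _ := by rw [e1]; ring
      have h5 : (1 : ℝ) ≤ ℓ * (1 + M) := by nlinarith
      calc _ ≤ (17 * q) * (1 + |y|) := h1
        _ = 17 * (q * (1 + |y|)) := by ring
        _ ≤ 17 * (2 * Real.exp (u ^ 2)) := by
            apply mul_le_mul_of_nonneg_left _ (by norm_num)
            exact (habs y).trans h4
        _ = 34 * 1 * Real.exp (u ^ 2) := by ring
        _ ≤ 34 * (ℓ * (1 + M)) * Real.exp (u ^ 2) := by gcongr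
        _ ≤ _ := by
            have : 0 ≤ 16 * C * ℓ * (1 + M) * Real.exp (u ^ 2) := by positivity
            linarith
  have htl := three_lines (a := -(1 / 4)) (b := δ) (σ0 := 0) (t0 := t)
    (lam := 4 * Real.log P) (by linarith) (by norm_num) hδ0.le hdc hgr hleft hright
  have e1 : Real.exp ((δ - -(1 / 4)) ^ 2) ≤ Real.exp 1 := by
    apply Real.exp_le_exp.mpr
    nlinarith
  have e2 : 34 * P * Real.exp (4 * Real.log P * (-(1 / 4) - 0)) = 34 := by
    have : Real.exp (4 * Real.log P * (-(1 / 4) - 0)) = P⁻¹ := by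
      rw [show 4 * Real.log P * (-(1 / 4) - 0) = -Real.log P by ring, Real.exp_neg,
        Real.exp_log hP0]
    rw [this, mul_assoc, mul_inv_cancel₀ hP0.ne', mul_one]
  have e3 : Real.exp (4 * Real.log P * (δ - 0)) ≤ 2 := by
    have h1 : 4 * Real.log P * (δ - 0) ≤ 1 / 2 := by
      rw [hδ, sub_zero, mul_one_div, div_le_iff₀ (by positivity)]
      linarith
    refine (Real.exp_le_exp.mpr h1).trans ?_
    have := Real.exp_bound_div_one_sub_of_interval (x := 1 / 2) (by norm_num) (by norm_num)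
    norm_num at this ⊢
    linarith
  have hmain : ‖DirichletCharacter.LFunction χ ⟨1 / 2, t⟩‖ = ‖h ⟨0, t⟩‖ := by
    simp only [hh]
    rw [half_add]
    simp
  rw [hmain]
  refine htl.trans ?_
  have hmax : max (34 * P * Real.exp (4 * Real.log P * (-(1 / 4) - 0)))
      ((16 * C + 34) * ℓ * (1 + M) * Real.exp (4 * Real.log P * (δ - 0))) ≤
      (34 + 2 * (16 * C + 34)) * ℓ * (1 + M) := by
    have h5 : (1 : ℝ) ≤ ℓ * (1 + M) := by nlinarith
    apply max_le
    · rw [e2]
      have : 0 ≤ 2 * (16 * C + 34) * (ℓ * (1 + M)) := by positivity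
      nlinarith
    · have h1 : (16 * C + 34) * ℓ * (1 + M) * Real.exp (4 * Real.log P * (δ - 0)) ≤
          (16 * C + 34) * ℓ * (1 + M) * 2 := mul_le_mul_of_nonneg_left e3 (by positivity)
      have h2 : 0 ≤ 34 * (ℓ * (1 + M)) := by positivity
      nlinarith
  have hexp3 : Real.exp 1 ≤ 3 := by linarith [Real.exp_one_lt_d9]
  calc _ ≤ 3 * ((34 + 2 * (16 * C + 34)) * ℓ * (1 + M)) := by
        apply mul_le_mul (e1.trans hexp3) hmax _ (by norm_num)
        apply le_max_of_le_left
        positivity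
    _ = _ := by ring

end H429.GS
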