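import Pool.Agent.H429R5.GS.E
import Pool.Agent.H429R4.MG.F6

/-!
Moments of the zeta function and the negative values at the Gram points, with a single logarithm.
-/

open Complex Filter Topology Set Metric MeasureTheory

namespace H429.GS

open H370.DL H429.GP H429.MG

theorem haa1 : (aa (1 : DirichletCharacter ℂ 1)).re = 0 := by
  have heven : (1 : DirichletCharacter ℂ 1).Even := by
    unfold DirichletCharacter.Even
    exact MulChar.one_apply (isUnit_of_subsingleton _)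
  have haa : H370.DL.aa (1 : DirichletCharacter ℂ 1) = 0 := by
    unfold H370.DL.aa
    rw [if_pos heven]
  rw [haa, zero_re]

theorem upper_pt2 {p : ℝ} (hp : 0 < p) {ω : ℂ} (hω : ‖ω‖ = 1) : ∃ C : ℝ, 0 < C ∧ ∀ t : ℝ,
    ∀ S : Finset ℝ,
    (∀ g : ℝ, |g - t| ≤ 6 * √(1 + Real.log (1 + |t|)) → X1 ⟨1 / 2, g⟩ = ω ^ 2 →
      ((starRingEnd ℂ) ω * LL ⟨1 / 2, g⟩).re < 0 → g ∈ S) →
    V t ^ p ≤ C * (1 + Real.log (1 + |t|)) ^ p * (1 +
      ∑ g ∈ S with |g - t| ≤ 6 * √(1 + Real.log (1 + |t|)), V g ^ p) := by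
  obtain ⟨C, hC, h⟩ := local_transfer2 prim1 haa1 hω
  refine ⟨C ^ p * 2 ^ p, by positivity, ?_⟩
  intro t S hS
  set ℓ : ℝ := 1 + Real.log (1 + |t|) with hℓ
  have hl0 : 0 ≤ Real.log (1 + |t|) := Real.log_nonneg (by linarith [abs_nonneg t])
  have hℓ1 : 1 ≤ ℓ := by linarith
  set Sg : ℝ := ∑ g ∈ S with |g - t| ≤ 6 * √ℓ, V g ^ p with hSgd
  have hnn : ∀ u : ℝ, 0 ≤ V u ^ p := fun u => Real.rpow_nonneg (V_nonneg u) p
  have hSg0 : 0 ≤ Sg := Finset.sum_nonneg fun g _ => hnn g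
  set M : ℝ := Sg ^ (1 / p) with hM
  have hM0 : 0 ≤ M := Real.rpow_nonneg hSg0 _
  have hMp : M ^ p = Sg := by
    rw [hM, ← Real.rpow_mul hSg0, one_div, inv_mul_cancel₀ hp.ne', Real.rpow_one]
  have h1 := h t M hM0 (by
    intro y hy hX
    rw [Nat.cast_one, one_mul] at hy
    rcases lt_or_ge ((starRingEnd ℂ) ω * LL ⟨1 / 2, y⟩).re 0 with hneg | hpos
    · have hyS := hS y hy hX hneg
      have hle : V y ^ p ≤ Sg :=
        Finset.single_le_sum (f := fun g => V g ^ p) (fun g _ => hnn g)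
          (Finset.mem_filter.mpr ⟨hyS, hy⟩)
      have hle2 : V y ≤ M := by
        have := Real.rpow_le_rpow (hnn y) hle (show 0 ≤ 1 / p by positivity)
        rwa [← Real.rpow_mul (V_nonneg y), mul_one_div_cancel hp.ne', Real.rpow_one] at this
      have h6 := (abs_le.mp (abs_re_le_norm ((starRingEnd ℂ) ω * LL ⟨1 / 2, y⟩))).1
      rw [norm_mul, RCLike.norm_conj, hω, one_mul] at h6
      have h7 : ‖LL ⟨1 / 2, y⟩‖ = V y := rfl
      rw [h7] at h6
      exact le_trans (by linarith) h6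
    · exact le_trans (by linarith) hpos)
  rw [Nat.cast_one, one_mul] at h1
  have h2 : V t ≤ C * ℓ * (1 + M) := h1
  calc V t ^ p ≤ (C * ℓ * (1 + M)) ^ p := Real.rpow_le_rpow (V_nonneg t) h2 hp.le
    _ = C ^ p * ℓ ^ p * (1 + M) ^ p := by
      rw [Real.mul_rpow (by positivity) (by positivity), Real.mul_rpow hC.le (by linarith)]
    _ ≤ C ^ p * ℓ ^ p * (2 ^ p * (1 ^ p + M ^ p)) := by
      apply mul_le_mul_of_nonneg_left (two_pow_le (by norm_num) hM0 hp)
      have : 0 ≤ ℓ ^ p := Real.rpow_nonneg (by linarith) p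
      positivity
    _ = _ := by rw [hMp, Real.one_rpow]; ring

theorem upper_int2 {p : ℝ} (hp : 0 < p) {ω : ℂ} (hω : ‖ω‖ = 1) : ∃ C : ℝ, 0 < C ∧ ∀ T : ℝ,
    37 ≤ T → ∀ S : Finset ℝ,
    (∀ g : ℝ, 0 ≤ g → g ≤ 2 * T → X1 ⟨1 / 2, g⟩ = ω ^ 2 →
      ((starRingEnd ℂ) ω * LL ⟨1 / 2, g⟩).re < 0 → g ∈ S) →
    ∫ t in (37 : ℝ)..T, V t ^ p ≤ C * ll T ^ p * T +
      C * ll T ^ (p + 1 / 2) * ∑ g ∈ S, V g ^ p := by
  obtain ⟨C, hC, h⟩ := upper_pt2 hp hω
  refine ⟨C * 12, by positivity, ?_⟩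
  intro T hT S hS
  have hcont := continuous_Vp hp
  have hlT := one_le_ll (show 0 ≤ T by linarith)
  set W : ℝ := 6 * √(ll T) with hW
  have hsq0 : 0 ≤ √(ll T) := Real.sqrt_nonneg _
  have hW0 : 0 ≤ W := by positivity
  have hnn : ∀ u : ℝ, 0 ≤ V u ^ p := fun u => Real.rpow_nonneg (V_nonneg u) p
  have hII : ∀ g c a b : ℝ, IntervalIntegrable
      ((Icc (g - W) (g + W)).indicator (fun _ => c)) volume a b := by
    intro g c a b
    have h := intervalIntegrable_const (μ := volume) (a := a) (b := b) (c := c)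
    exact ⟨h.1.indicator measurableSet_Icc, h.2.indicator measurableSet_Icc⟩
  have hlp0 : 0 ≤ ll T ^ p := Real.rpow_nonneg (by linarith) p
  have hpt : ∀ t ∈ Icc (37 : ℝ) T, V t ^ p ≤ C * ll T ^ p * (1 +
      ∑ g ∈ S, (Icc (g - W) (g + W)).indicator (fun _ => V g ^ p) t) := by
    intro t ht
    have ht0 : 0 ≤ t := by linarith [ht.1]
    have hat : |t| = t := abs_of_nonneg ht0
    have hlt : 1 + Real.log (1 + |t|) = ll t := by rw [hat]; rfl
    have hllt := one_le_ll ht0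
    have hltT : ll t ≤ ll T := ll_mono ht0 ht.2
    have hsqt : √(ll t) ≤ √(ll T) := Real.sqrt_le_sqrt hltT
    have hwin : ∀ u : ℝ, 37 ≤ u → 6 * √(ll u) ≤ u := by
      intro u hu
      have h1 : √(ll u) ≤ u / 6 := by
        rw [Real.sqrt_le_left (by linarith)]
        unfold ll
        have := Real.log_le_sub_one_of_pos (show 0 < 1 + u by linarith)
        nlinarith
      linarith
    have h1 := h t S (by
      intro g hg hX hneg
      rw [hlt] at hg
      obtain ⟨a1, a2⟩ := abs_le.mp hg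
      have w1 := hwin t ht.1
      exact hS g (by linarith) (by linarith [ht.2]) hX hneg)
    rw [hlt] at h1
    refine h1.trans ?_
    have hltp : ll t ^ p ≤ ll T ^ p := Real.rpow_le_rpow (by linarith) hltT hp.le
    have hltp0 : 0 ≤ ll t ^ p := Real.rpow_nonneg (by linarith) p
    have hsum : ∑ g ∈ S with |g - t| ≤ 6 * √(ll t), V g ^ p ≤
        ∑ g ∈ S, (Icc (g - W) (g + W)).indicator (fun _ => V g ^ p) t := by
      rw [Finset.sum_filter]
      apply Finset.sum_le_sum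
      intro g _
      split_ifs with hg
      · obtain ⟨a1, a2⟩ := abs_le.mp hg
        rw [indicator_of_mem]
        constructor <;> linarith
      · exact indicator_nonneg (fun _ _ => hnn g) t
    have hs0 : 0 ≤ ∑ g ∈ S with |g - t| ≤ 6 * √(ll t), V g ^ p :=
      Finset.sum_nonneg fun g _ => hnn g
    apply mul_le_mul
    · exact mul_le_mul_of_nonneg_left hltp hC.le
    · exact add_le_add le_rfl hsum
    · positivity
    · positivity
  have hIS : IntervalIntegrable (fun t => ∑ g ∈ S, (Icc (g - W) (g + W)).indicator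
      (fun _ => V g ^ p) t) volume 37 T := by
    have h := IntervalIntegrable.sum S
      (f := fun g => (Icc (g - W) (g + W)).indicator (fun _ => V g ^ p))
      (μ := volume) (a := 37) (b := T) (fun g _ => hII g _ _ _)
    have e : (∑ g ∈ S, (Icc (g - W) (g + W)).indicator (fun _ => V g ^ p)) =
        fun t => ∑ g ∈ S, (Icc (g - W) (g + W)).indicator (fun _ => V g ^ p) t := by
      funext t
      rw [Finset.sum_apply]
    rw [e] at h
    exact h
  have hint : ∫ t in (37 : ℝ)..T, ∑ g ∈ S, (Icc (g - W) (g + W)).indicator (fun _ => V g ^ p) t ≤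
      2 * W * ∑ g ∈ S, V g ^ p := by
    rw [intervalIntegral.integral_finsetSum (fun g _ => hII g _ _ _), Finset.mul_sum]
    apply Finset.sum_le_sum
    intro g _
    have := ind_int (a := 37) (b := T) (l := g - W) (r := g + W) (c := V g ^ p) hT (by linarith)
      (hnn g)
    linarith
  have hSg0 : 0 ≤ ∑ g ∈ S, V g ^ p := Finset.sum_nonneg fun g _ => hnn g
  have e2 : ll T ^ (p + 1 / 2) = ll T ^ p * √(ll T) := by
    rw [Real.rpow_add (by linarith), Real.sqrt_eq_rpow]
  calc ∫ t in (37 : ℝ)..T, V t ^ p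
      ≤ ∫ t in (37 : ℝ)..T, C * ll T ^ p * (1 +
          ∑ g ∈ S, (Icc (g - W) (g + W)).indicator (fun _ => V g ^ p) t) := by
        refine intervalIntegral.integral_mono_on hT (hcont.intervalIntegrable _ _) ?_ hpt
        exact (intervalIntegrable_const.add hIS).const_mul _
    _ = C * ll T ^ p * ((T - 37) * 1 +
          ∫ t in (37 : ℝ)..T, ∑ g ∈ S, (Icc (g - W) (g + W)).indicator (fun _ => V g ^ p) t) := by
        rw [intervalIntegral.integral_const_mul,
          intervalIntegral.integral_add intervalIntegrable_const hIS,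
          intervalIntegral.integral_const, smul_eq_mul]
    _ ≤ C * ll T ^ p * (T + 2 * W * ∑ g ∈ S, V g ^ p) := by
        apply mul_le_mul_of_nonneg_left _ (by positivity)
        apply add_le_add _ hint
        linarith
    _ ≤ C * 12 * ll T ^ p * T + C * 12 * ll T ^ (p + 1 / 2) * ∑ g ∈ S, V g ^ p := by
        rw [e2, hW]
        have q1 : 0 ≤ C * ll T ^ p * T := by
          have : 0 ≤ T := by linarith
          positivity
        nlinarith

theorem main_a2 {p : ℝ} (hp : 0 < p) {ω : ℂ} (hω : ‖ω‖ = 1) : ∃ C : ℝ, 0 < C ∧ ∀ T : ℝ,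
    2 ≤ T → ∀ S : Finset ℝ,
    (∀ g : ℝ, 0 ≤ g → g ≤ 2 * T → X1 ⟨1 / 2, g⟩ = ω ^ 2 →
      ((starRingEnd ℂ) ω * LL ⟨1 / 2, g⟩).re < 0 → g ∈ S) →
    ∫ t in (0 : ℝ)..T, V t ^ p ≤ C * (Real.log T ^ p * T +
      Real.log T ^ (p + 1 / 2) * ∑ g ∈ S, V g ^ p) := by
  obtain ⟨C, hC, h⟩ := upper_int2 hp hω
  have hcont := continuous_Vp hp
  have hnn : ∀ u : ℝ, 0 ≤ V u ^ p := fun u => Real.rpow_nonneg (V_nonneg u) p
  set K0 : ℝ := ∫ t in (0 : ℝ)..37, V t ^ p with hK0
  have hK00 : 0 ≤ K0 := intervalIntegral.integral_nonneg (by norm_num) fun u _ => hnn u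
  have hlog2 : 0 < Real.log 2 := Real.log_pos (by norm_num)
  set m : ℝ := Real.log 2 ^ p * 2 with hm
  have hm0 : 0 < m := by positivity
  refine ⟨K0 / m + C * 4 ^ p + C * 4 ^ (p + 1 / 2), by positivity, ?_⟩
  intro T hT S hS
  have hlogT : Real.log 2 ≤ Real.log T := Real.log_le_log (by norm_num) hT
  have hlogT0 : 0 < Real.log T := by linarith
  have hT0 : 0 ≤ T := by linarith
  have hSS : 0 ≤ ∑ g ∈ S, V g ^ p := Finset.sum_nonneg fun g _ => hnn g
  set A : ℝ := Real.log T ^ p with hA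
  set B : ℝ := Real.log T ^ (p + 1 / 2) with hB
  set Q : ℝ := ∑ g ∈ S, V g ^ p with hQ
  have hA0 : 0 ≤ A := Real.rpow_nonneg hlogT0.le _
  have hB0 : 0 ≤ B := Real.rpow_nonneg hlogT0.le _
  have hmA : m ≤ A * T := by
    rw [hm, hA]
    apply mul_le_mul (Real.rpow_le_rpow hlog2.le hlogT (by positivity)) hT (by norm_num) hA0
  have hKm : K0 ≤ K0 / m * (A * T) := by
    calc K0 = K0 / m * m := by field_simp
      _ ≤ _ := by gcongr
  have hp1 : 0 < (4 : ℝ) ^ p := by positivity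
  have hp2 : 0 < (4 : ℝ) ^ (p + 1 / 2) := by positivity
  have hAT : 0 ≤ A * T := by positivity
  have hBQ : 0 ≤ B * Q := by positivity
  have hKm0 : 0 ≤ K0 / m := by positivity
  rcases lt_or_ge T 37 with h37 | h37
  · have h1 : ∫ t in (0 : ℝ)..T, V t ^ p ≤ K0 := by
      rw [hK0]
      apply intervalIntegral.integral_mono_interval le_rfl hT0 h37.le
      · exact Filter.Eventually.of_forall fun u => hnn u
      · exact hcont.intervalIntegrable _ _
    refine (h1.trans hKm).trans ?_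
    have q1 : 0 ≤ (C * 4 ^ p + C * 4 ^ (p + 1 / 2)) * (A * T) := by positivity
    have q2 : 0 ≤ (K0 / m + C * 4 ^ p + C * 4 ^ (p + 1 / 2)) * (B * Q) := by positivity
    linarith
  · have h1 : ∫ t in (0 : ℝ)..T, V t ^ p = K0 + ∫ t in (37 : ℝ)..T, V t ^ p := by
      rw [hK0]
      exact (intervalIntegral.integral_add_adjacent_intervals (hcont.intervalIntegrable _ _)
        (hcont.intervalIntegrable _ _)).symm
    have h2 := h T h37 S hS
    have hll := ll_le_log hT
    have hll1 := one_le_ll hT0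
    have e1 : ll T ^ p ≤ 4 ^ p * A := by
      rw [hA, ← Real.mul_rpow (by norm_num) hlogT0.le]
      exact Real.rpow_le_rpow (by linarith) hll (by positivity)
    have e2 : ll T ^ (p + 1 / 2) ≤ 4 ^ (p + 1 / 2) * B := by
      rw [hB, ← Real.mul_rpow (by norm_num) hlogT0.le]
      exact Real.rpow_le_rpow (by linarith) hll (by positivity)
    have e3 : C * ll T ^ p * T ≤ C * (4 ^ p * A) * T := by gcongr
    have e4 : C * ll T ^ (p + 1 / 2) * Q ≤ C * (4 ^ (p + 1 / 2) * B) * Q := by gcongr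
    rw [h1]
    have q1 : 0 ≤ (C * 4 ^ (p + 1 / 2)) * (A * T) := by positivity
    have q2 : 0 ≤ (K0 / m + C * 4 ^ p) * (B * Q) := by positivity
    linarith

end H429.GS
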