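import Pool.Agent.H429R5.GS.F

/-!
The local bound with the sum of the negative values at the Gram points.
-/

open Complex Filter Topology Set Metric MeasureTheory

namespace H429.GS

open H370.DL H429.GP

/-- the correction term at a Gram point -/
noncomputable def tau (X : ℂ → ℂ) (j : ℝ) (z : ℂ) : ℂ :=
  -dslope X ⟨0, j / 2⟩ z * cexp (2 * (2 * z - ⟨0, j⟩) ^ 2)

theorem norm_gauss2 (j : ℝ) (z : ℂ) : ‖cexp (2 * (2 * z - ⟨0, j⟩) ^ 2)‖ =
    Real.exp (2 * ((2 * z.re) ^ 2 - (2 * z.im - j) ^ 2)) := by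
  rw [norm_exp]
  congr 1
  have h2 : (2 * (2 * z - ⟨0, j⟩) ^ 2 : ℂ).re = 2 * ((2 * z - ⟨0, j⟩) ^ 2 : ℂ).re := by
    rw [mul_re]; norm_num
  rw [h2, sq, mul_re]
  have e1 : (2 * z - ⟨0, j⟩ : ℂ).re = 2 * z.re := by simp
  have e2 : (2 * z - ⟨0, j⟩ : ℂ).im = 2 * z.im - j := by simp
  rw [e1, e2]
  ring

theorem gauss2_real (j : ℝ) (z : ℂ) (hz : z.re = 0) : cexp (2 * (2 * z - ⟨0, j⟩) ^ 2) =
    ((Real.exp (-(2 * (2 * z.im - j) ^ 2)) : ℝ) : ℂ) := by
  rw [ofReal_exp]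
  congr 1
  have h1 : (2 * z - ⟨0, j⟩ : ℂ) ^ 2 = ((-(2 * z.im - j) ^ 2 : ℝ) : ℂ) := by
    apply Complex.ext
    · simp [sq, hz]
    · simp [sq, hz]
  rw [h1]
  push_cast
  ring

theorem tau_bound {X : ℂ → ℂ} {j ρ : ℝ} {z : ℂ} (hXj : X ⟨0, j / 2⟩ = 1) (hX : ‖X z‖ ≤ 1)
    (hρ : 0 < ρ) (hz : ρ ≤ ‖z - ⟨0, j / 2⟩‖) :
    ‖tau X j z‖ ≤ 2 / ρ * Real.exp (2 * ((2 * z.re) ^ 2 - (2 * z.im - j) ^ 2)) := by
  unfold tau
  rw [norm_mul, norm_neg, norm_gauss2]
  apply mul_le_mul_of_nonneg_right _ (Real.exp_pos _).le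
  have hne : z ≠ ⟨0, j / 2⟩ := by
    intro h
    rw [h, sub_self, norm_zero] at hz
    linarith
  rw [dslope_of_ne _ hne, slope_def_field, norm_div, hXj]
  have h1 : ‖X z - 1‖ ≤ 2 := by
    refine (norm_sub_le _ _).trans ?_
    rw [norm_one]
    linarith
  exact div_le_div₀ (by norm_num) h1 hρ hz

theorem tau_line {X : ℂ → ℂ} {j : ℝ} {z : ℂ} (hXj : X ⟨0, j / 2⟩ = 1) (hX : ‖X z‖ = 1)
    (hz : z.re = 0) (hd : (deriv X ⟨0, j / 2⟩).im = 0) :
    tau X j z = X z * (starRingEnd ℂ) (tau X j z) := by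
  unfold tau
  rw [gauss2_real j z hz, map_mul, conj_ofReal, map_neg]
  by_cases hne : z = ⟨0, j / 2⟩
  · rw [hne, dslope_same, hXj, one_mul]
    congr 2
    apply Complex.ext
    · simp
    · simp [hd]
  · rw [dslope_of_ne _ hne, slope_def_field, hXj, map_div₀, map_sub, map_sub, map_one]
    have h1 : (starRingEnd ℂ) z = -z := by
      apply Complex.ext <;> simp [hz]
    have h2 : (starRingEnd ℂ) (⟨0, j / 2⟩ : ℂ) = -⟨0, j / 2⟩ := by
      apply Complex.ext <;> simp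
    have h3 : X z * (starRingEnd ℂ) (X z) = 1 := by
      rw [mul_conj, normSq_eq_norm_sq, hX]
      simp
    have h4 : z - ⟨0, j / 2⟩ ≠ 0 := sub_ne_zero.mpr hne
    have h6 : (-z - -⟨0, j / 2⟩ : ℂ) = -(z - ⟨0, j / 2⟩) := by ring
    rw [h1, h2, h6]
    have h5 : X z * -(((starRingEnd ℂ) (X z) - 1) / -(z - ⟨0, j / 2⟩)) =
        (X z * (starRingEnd ℂ) (X z) - X z) / (z - ⟨0, j / 2⟩) := by
      field_simp
    rw [← mul_assoc, h5, h3]
    congr 1
    field_simp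
    ring

theorem app_local3 {q : ℕ} [NeZero q] {χ : DirichletCharacter ℂ q} {cX G : ℝ} (hG : 1 ≤ G)
    {s y1 : ℝ} (hy1 : 0 < y1) (hcX : ∀ x y : ℝ, 0 ≤ x → x ≤ 1 → y1 ≤ s * y →
      ‖XX χ ⟨1 / 2 + x, y⟩‖ ≤ Real.exp (-x * (Real.log (q * (1 + |y|)) - cX)))
    (hgrow : ∀ x y : ℝ, 0 ≤ x → x ≤ 1 → y1 ≤ s * y →
      ‖DirichletCharacter.LFunction χ ⟨1 / 2 + x, y⟩‖ ≤ G * (1 + |y|))
    (hχ : χ.IsPrimitive) {ω : ℂ} (hω : ‖ω‖ = 1)
    (hbig : ∀ y : ℝ, y1 ≤ s * y → cX + 1 ≤ Real.log (q * (1 + |y|)))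
    {B F0 c t0 δ : ℝ} (hB : 0 ≤ B) (hF0 : 0 < F0) (hc : 0 < c)
    (hs1 : |s| = 1) {J : Finset ℝ} {cf : ℝ → ℝ} {W : ℝ} (hcf : ∀ j ∈ J, 0 ≤ cf j)
    (hJW : ∀ j ∈ J, |j - t0| ≤ W) (hJ1 : ∀ j ∈ J, y1 + 1 ≤ s * j)
    (hJX : ∀ j ∈ J, XX χ ⟨1 / 2, j⟩ = ω ^ 2)
    (hJim : ∀ j ∈ J, (logDeriv (XX χ) ⟨1 / 2, j⟩).im = 0)
    (hgram : ∀ y : ℝ, XX χ ⟨1 / 2, y⟩ = ω ^ 2 →
      0 ≤ ((starRingEnd ℂ) ω * DirichletCharacter.LFunction χ ⟨1 / 2, y⟩).re *
        Real.exp (-(y - t0) ^ 2) +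
        (if y ∈ J then cf y * (-(2 * (logDeriv (XX χ) ⟨1 / 2, y⟩).re)) else 0) +
        B * Real.exp (-(y - t0) ^ 2 / 2))
    (hFside : ∀ y : ℝ, y1 ≤ s * y → ‖DirichletCharacter.LFunction χ ⟨3 / 2, y⟩‖ *
      Real.exp (1 - (y - t0) ^ 2) ≤ F0)
    (hFbot : ∀ x y : ℝ, 0 ≤ x → x ≤ 1 → s * y = y1 →
      ‖DirichletCharacter.LFunction χ ⟨1 / 2 + x, y⟩‖ * Real.exp 1 ≤ F0)
    (hcside : c ≤ 1 - Real.exp (-1))
    (hcbot : ∀ x y r : ℝ, 0 ≤ x → x ≤ 1 → s * y = y1 → 0 ≤ r → r ≤ 1 →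
      c ≤ ‖1 - r * ((starRingEnd ℂ) ω ^ 2 * XX χ ⟨1 / 2 + x, y⟩)‖)
    (hδ : 0 < δ) (hδ' : δ < 1) (ht0 : ∀ y : ℝ, |y - t0| ≤ 2 → y1 < s * y) :
    ‖DirichletCharacter.LFunction χ ⟨1 / 2 + δ, t0⟩‖ ≤
      52 * ((F0 + 36 * (∑ j ∈ J, cf j) + 4 * B) / c) / (δ / 2) + 2 * B +
        36 * (∑ j ∈ J, cf j) / δ := by
  set Sc : ℝ := ∑ j ∈ J, cf j with hSc
  have hSc0 : 0 ≤ Sc := Finset.sum_nonneg hcf
  set b : ℝ := 1 / 2 with hb
  set V : Set ℝ := {y | y1 < s * (2 * y)} with hV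
  set U : Set ℂ := Ioo 0 b ×ℂ V with hU
  have hVo : IsOpen V := isOpen_lt continuous_const (by fun_prop)
  have hUo : IsOpen U := isOpen_Ioo.reProdIm hVo
  have hVcl : closure V ⊆ {y | y1 ≤ s * (2 * y)} :=
    closure_minimal (fun y (hy : y1 < s * (2 * y)) => (show y1 ≤ s * (2 * y) from hy.le))
      (isClosed_le continuous_const (by fun_prop))
  have hb0 : 0 < b := by rw [hb]; norm_num
  have hclU : closure U = Icc 0 b ×ℂ closure V := by
    rw [hU, closure_reProdIm, closure_Ioo hb0.ne]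
  have hcl : ∀ z ∈ closure U, 0 ≤ z.re ∧ z.re ≤ b ∧ y1 ≤ s * (2 * z.im) := by
    intro z hz
    rw [hclU, mem_reProdIm] at hz
    exact ⟨hz.1.1, hz.1.2, hVcl hz.2⟩
  have hx : ∀ z ∈ closure U, 0 ≤ 2 * z.re ∧ 2 * z.re ≤ 1 := by
    intro z hz
    obtain ⟨h1, h2, -⟩ := hcl z hz
    rw [hb] at h2
    constructor <;> linarith
  have him : ∀ z ∈ closure U, 2 * z.im ≠ 0 := by
    intro z hz h
    obtain ⟨-, -, h3⟩ := hcl z hz
    rw [h, mul_zero] at h3
    linarith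
  set A : Set ℂ := closure U ∩ {z | z.re = 0} with hA
  set D : Set ℂ := closure U ∩ {z | z.re = b ∨ s * (2 * z.im) = y1} with hD
  have hAcl : IsClosed A :=
    isClosed_closure.inter (isClosed_eq continuous_re continuous_const)
  have hfr : frontier U ⊆ A ∪ D := by
    intro z hz
    rw [hUo.frontier_eq] at hz
    obtain ⟨h1, h2, h3⟩ := hcl z hz.1
    by_cases h4 : z.re = 0
    · exact Or.inl ⟨hz.1, h4⟩
    · right
      refine ⟨hz.1, ?_⟩
      by_contra hcon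
      simp only [Set.mem_ofPred_eq, not_or] at hcon
      apply hz.2
      rw [hU, mem_reProdIm]
      exact ⟨⟨lt_of_le_of_ne h1 (Ne.symm h4), lt_of_le_of_ne h2 hcon.1⟩,
        lt_of_le_of_ne h3 (Ne.symm hcon.2)⟩
  set p : ℂ := ⟨0, t0⟩ with hp
  set w : ℂ := (starRingEnd ℂ) ω with hw
  have hwn : ‖w‖ = 1 := by rw [hw, RCLike.norm_conj, hω]
  have hww : w * (starRingEnd ℂ) w = 1 := by
    rw [mul_conj, normSq_eq_norm_sq, hwn]; simp
  set f : ℂ → ℂ := fun z => w * DirichletCharacter.LFunction χ (1 / 2 + 2 * z) *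
    cexp ((2 * z - p) ^ 2) with hf
  set X : ℂ → ℂ := fun z => w ^ 2 * XX χ (1 / 2 + 2 * z) with hX
  set g : ℂ → ℂ := fun z => cexp ((2 * z - p) ^ 2 / 2) with hg
  have hfd : DiffContOnCl ℂ f U := by
    apply DifferentiableOn.diffContOnCl
    intro z hz
    apply DifferentiableAt.differentiableWithinAt
    have h3 : (1 / 2 : ℂ) + 2 * z ≠ 1 := by
      rw [half_add2]
      intro h
      have := congrArg im h
      simp only [one_im] at this
      exact him z hz this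
    have h4 : DifferentiableAt ℂ (fun z => DirichletCharacter.LFunction χ (1 / 2 + 2 * z)) z :=
      DifferentiableAt.comp (g := DirichletCharacter.LFunction χ)
        (f := fun z : ℂ => 1 / 2 + 2 * z) z
        (analyticAt_L h3).differentiableAt (by fun_prop)
    exact (h4.const_mul w).mul (by fun_prop)
  have hXd : DiffContOnCl ℂ X U := by
    apply DifferentiableOn.diffContOnCl
    intro z hz
    apply DifferentiableAt.differentiableWithinAt
    have h4 : DifferentiableAt ℂ (fun z => XX χ (1 / 2 + 2 * z)) z :=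
      DifferentiableAt.comp (g := XX χ) (f := fun z : ℂ => 1 / 2 + 2 * z) z
        (analyticAt_XX (by rw [half_add2]; exact him z hz)).differentiableAt (by fun_prop)
    exact h4.const_mul (w ^ 2)
  have hgd : DiffContOnCl ℂ g U := by
    have : Differentiable ℂ g := by rw [hg]; fun_prop
    exact this.diffContOnCl
  have hXn : ∀ z ∈ closure U, ‖X z‖ ≤ Real.exp (-(2 * z.re)) := by
    intro z hz
    obtain ⟨-, -, h3⟩ := hcl z hz
    obtain ⟨h1, h2⟩ := hx z hz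
    simp only [hX]
    rw [norm_mul, norm_pow, hwn, one_pow, one_mul, half_add2]
    refine (hcX (2 * z.re) (2 * z.im) h1 h2 h3).trans ?_
    apply Real.exp_le_exp.mpr
    nlinarith [hbig (2 * z.im) h3]
  have hX1 : ∀ z ∈ U, ‖X z‖ < 1 := by
    intro z hz
    refine lt_of_le_of_lt (hXn z (subset_closure hz)) ?_
    rw [Real.exp_lt_one_iff]
    have h1 : 0 < z.re := (mem_reProdIm.mp hz).1.1
    linarith
  have hXA : ∀ z ∈ A, ‖X z‖ = 1 := by
    intro z hz
    simp only [hX]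
    rw [norm_mul, norm_pow, hwn, one_pow, one_mul, half_add2]
    have h1 : z.re = 0 := hz.2
    rw [h1, mul_zero, add_zero]
    exact norm_XX_line hχ _
  have hexp : ∀ z : ℂ, z.re = 0 →
      cexp ((2 * z - p) ^ 2) = ((Real.exp (-(2 * z.im - t0) ^ 2) : ℝ) : ℂ) := by
    intro z hz
    rw [ofReal_exp]
    congr 1
    apply Complex.ext
    · simp [hp, sq, hz]
    · simp [hp, sq, hz]
  have hexp2 : ∀ z : ℂ, z.re = 0 →
      cexp ((2 * z - p) ^ 2 / 2) = ((Real.exp (-(2 * z.im - t0) ^ 2 / 2) : ℝ) : ℂ) := by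
    intro z hz
    rw [ofReal_exp]
    congr 1
    have h1 : (2 * z - p) ^ 2 = ((-(2 * z.im - t0) ^ 2 : ℝ) : ℂ) := by
      apply Complex.ext
      · simp [hp, sq, hz]
      · simp [hp, sq, hz]
    rw [h1]
    push_cast
    ring
  have hfA : ∀ z ∈ A, f z = X z * (starRingEnd ℂ) (f z) := by
    intro z hz
    have h1 : z.re = 0 := hz.2
    have h2 := func_line hχ (2 * z.im)
    simp only [hf, hX]
    rw [hexp z h1, half_add2, h1, mul_zero, add_zero, map_mul, map_mul, conj_ofReal]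
    calc w * DirichletCharacter.LFunction χ ⟨1 / 2, 2 * z.im⟩ *
          ((Real.exp (-(2 * z.im - t0) ^ 2) : ℝ) : ℂ)
        = w * (XX χ ⟨1 / 2, 2 * z.im⟩ * (starRingEnd ℂ)
          (DirichletCharacter.LFunction χ ⟨1 / 2, 2 * z.im⟩)) *
          ((Real.exp (-(2 * z.im - t0) ^ 2) : ℝ) : ℂ) := by rw [← h2]
      _ = (w * (starRingEnd ℂ) w) * w * (XX χ ⟨1 / 2, 2 * z.im⟩ * (starRingEnd ℂ)
          (DirichletCharacter.LFunction χ ⟨1 / 2, 2 * z.im⟩)) *
          ((Real.exp (-(2 * z.im - t0) ^ 2) : ℝ) : ℂ) := by rw [hww, one_mul]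
      _ = _ := by ring
  have hgA : ∀ z ∈ A, 0 < (g z).re ∧ (g z).im = 0 := by
    intro z hz
    simp only [hg]
    rw [hexp2 z hz.2, ofReal_re, ofReal_im]
    exact ⟨Real.exp_pos _, rfl⟩
  -- the correction
  have hXj : ∀ j ∈ J, X ⟨0, j / 2⟩ = 1 := by
    intro j hj
    simp only [hX]
    rw [half_add2]
    simp only
    have e1 : (1 / 2 + 2 * 0 : ℝ) = 1 / 2 := by norm_num
    have e2 : 2 * (j / 2) = j := by ring
    have h3 : w * ω = 1 := by
      rw [hw, mul_comm, mul_conj, normSq_eq_norm_sq, hω]; simp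
    rw [e1, e2, hJX j hj, ← mul_pow, h3, one_pow]
  have hj0 : ∀ j ∈ J, j ≠ 0 := by
    intro j hj h
    have := hJ1 j hj
    rw [h, mul_zero] at this
    linarith
  have hdX : ∀ j ∈ J, deriv X ⟨0, j / 2⟩ = 2 * logDeriv (XX χ) ⟨1 / 2, j⟩ := by
    intro j hj
    have e0 : (1 / 2 : ℂ) + 2 * ⟨0, j / 2⟩ = ⟨1 / 2, j⟩ := by
      rw [half_add2]
      apply Complex.ext
      · simp
      · simp only
        ring
    have h1 : HasDerivAt (XX χ) (deriv (XX χ) ⟨1 / 2, j⟩) ((1 / 2 : ℂ) + 2 * ⟨0, j / 2⟩) := by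
      rw [e0]
      exact (analyticAt_XX (s := ⟨1 / 2, j⟩) (hj0 j hj)).differentiableAt.hasDerivAt
    have h2 : HasDerivAt (fun z : ℂ => (1 / 2 : ℂ) + 2 * z) 2 (⟨0, j / 2⟩ : ℂ) := by
      have := ((hasDerivAt_id (⟨0, j / 2⟩ : ℂ)).const_mul (2 : ℂ)).const_add (1 / 2 : ℂ)
      simpa using this
    have h3 := (HasDerivAt.comp (⟨0, j / 2⟩ : ℂ) h1 h2).const_mul (w ^ 2)
    have h4 : deriv X ⟨0, j / 2⟩ = w ^ 2 * (deriv (XX χ) ⟨1 / 2, j⟩ * 2) := h3.deriv
    have h5 : w ^ 2 * XX χ ⟨1 / 2, j⟩ = 1 := by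
      have h3 : w * ω = 1 := by
        rw [hw, mul_comm, mul_conj, normSq_eq_norm_sq, hω]; simp
      rw [hJX j hj, ← mul_pow, h3, one_pow]
    have hne : XX χ ⟨1 / 2, j⟩ ≠ 0 := by
      intro h
      rw [h, mul_zero] at h5
      exact zero_ne_one h5
    rw [h4, logDeriv_apply]
    field_simp
    linear_combination (deriv (XX χ) ⟨1 / 2, j⟩) * h5
  set f2 : ℂ → ℂ := fun z => f z + ∑ j ∈ J, (cf j : ℂ) * tau X j z with hf2
  have hXdo : DifferentiableOn ℂ X {z : ℂ | z.im ≠ 0} := by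
    intro z hz
    have hz' : z.im ≠ 0 := hz
    apply DifferentiableAt.differentiableWithinAt
    have h4 : DifferentiableAt ℂ (fun z => XX χ (1 / 2 + 2 * z)) z :=
      DifferentiableAt.comp (g := XX χ) (f := fun z : ℂ => 1 / 2 + 2 * z) z
        (analyticAt_XX (by rw [half_add2]; simpa using hz')).differentiableAt (by fun_prop)
    exact h4.const_mul (w ^ 2)
  have hopen : IsOpen {z : ℂ | z.im ≠ 0} := isOpen_ne_fun continuous_im continuous_const
  have htd : ∀ j ∈ J, ∀ z ∈ closure U, DifferentiableAt ℂ (tau X j) z := by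
    intro j hj z hz
    have hz0 : z.im ≠ 0 := by
      intro h
      exact him z hz (by rw [h, mul_zero])
    have h1 : {z : ℂ | z.im ≠ 0} ∈ 𝓝 (⟨0, j / 2⟩ : ℂ) := hopen.mem_nhds (by
      have := hj0 j hj
      simpa using this)
    have h2 := (Complex.differentiableOn_dslope h1).mpr hXdo
    have h3 : DifferentiableAt ℂ (dslope X ⟨0, j / 2⟩) z :=
      h2.differentiableAt (hopen.mem_nhds hz0)
    unfold tau
    exact h3.neg.mul (by fun_prop)
  have hf2d : DiffContOnCl ℂ f2 U := by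
    have h1 : DiffContOnCl ℂ (fun z => ∑ j ∈ J, (cf j : ℂ) * tau X j z) U := by
      apply DifferentiableOn.diffContOnCl
      intro z hz
      apply DifferentiableAt.differentiableWithinAt
      apply DifferentiableAt.fun_sum
      intro j hj
      exact (htd j hj z hz).const_mul _
    exact hfd.add h1
  have hXle : ∀ z ∈ closure U, ‖X z‖ ≤ 1 := by
    intro z hz
    refine (hXn z hz).trans ?_
    rw [Real.exp_le_one_iff]
    linarith [(hx z hz).1]
  have hf2A : ∀ z ∈ A, f2 z = X z * (starRingEnd ℂ) (f2 z) := by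
    intro z hz
    simp only [hf2]
    rw [map_add, mul_add, ← hfA z hz, map_sum, Finset.mul_sum]
    congr 1
    apply Finset.sum_congr rfl
    intro j hj
    rw [map_mul, conj_ofReal]
    have h1 := tau_line (hXj j hj) (hXA z hz) hz.2 (by
      have h := hJim j hj
      change (logDeriv (XX χ) ⟨1 / 2, j⟩).im = 0 at h
      rw [hdX j hj, show (2 : ℂ) = ((2 : ℝ) : ℂ) by push_cast; rfl, im_ofReal_mul, h, mul_zero])
    calc (cf j : ℂ) * tau X j z = cf j * (X z * (starRingEnd ℂ) (tau X j z)) := by rw [← h1]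
      _ = _ := by ring
  have hpos : ∀ z ∈ A, X z = 1 → 0 ≤ (f2 z).re + B * (g z).re := by
    intro z hz hX1
    have h1 : z.re = 0 := hz.2
    have h2 : XX χ ⟨1 / 2, 2 * z.im⟩ = ω ^ 2 := by
      simp only [hX] at hX1
      rw [half_add2, h1, mul_zero, add_zero] at hX1
      have h3 : ω * w = 1 := by
        rw [hw, mul_conj, normSq_eq_norm_sq, hω]; simp
      calc XX χ ⟨1 / 2, 2 * z.im⟩ = (ω * w) ^ 2 * XX χ ⟨1 / 2, 2 * z.im⟩ := by rw [h3]; ring
        _ = ω ^ 2 * (w ^ 2 * XX χ ⟨1 / 2, 2 * z.im⟩) := by ring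
        _ = ω ^ 2 := by rw [hX1, mul_one]
    have h3 := hgram (2 * z.im) h2
    have h4 : (∑ j ∈ J, (cf j : ℂ) * tau X j z).re =
        if 2 * z.im ∈ J then cf (2 * z.im) * (-(2 * (logDeriv (XX χ) ⟨1 / 2, 2 * z.im⟩).re))
          else 0 := by
      rw [re_sum]
      have h5 : ∀ j ∈ J, ((cf j : ℂ) * tau X j z).re =
          if 2 * z.im = j then cf (2 * z.im) * (-(2 * (logDeriv (XX χ) ⟨1 / 2, 2 * z.im⟩).re))
            else 0 := by
        intro j hj
        split_ifs with hjz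
        · have hzj : z = ⟨0, j / 2⟩ := by
            apply Complex.ext
            · exact h1
            · simp only
              linarith
          have e1 : tau X j z = -(2 * logDeriv (XX χ) ⟨1 / 2, j⟩) := by
            unfold tau
            rw [gauss2_real j z h1, hjz, hzj, dslope_same, hdX j hj]
            simp
          rw [e1, re_ofReal_mul, hjz]
          simp
        · have hzj : z ≠ ⟨0, j / 2⟩ := by
            intro h
            apply hjz
            rw [h]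
            simp only
            ring
          have e1 : tau X j z = 0 := by
            unfold tau
            rw [dslope_of_ne _ hzj, slope_def_field, hX1, hXj j hj, sub_self, zero_div, neg_zero,
              zero_mul]
          rw [e1, mul_zero, zero_re]
      rw [Finset.sum_congr rfl h5, Finset.sum_ite_eq]
    simp only [hf2]
    rw [add_re, h4]
    simp only [hf, hg]
    rw [hexp z h1, hexp2 z h1, half_add2, h1, mul_zero, add_zero, re_mul_ofReal, ofReal_re]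
    exact h3
  -- growth
  have hLb : ∀ z ∈ closure U, ‖DirichletCharacter.LFunction χ (1 / 2 + 2 * z)‖ ≤
      G * (1 + |2 * z.im|) := by
    intro z hz
    obtain ⟨-, -, h3⟩ := hcl z hz
    obtain ⟨h1, h2⟩ := hx z hz
    rw [half_add2]
    exact hgrow _ _ h1 h2 h3
  have hfn : ∀ z : ℂ, ‖f z‖ = ‖DirichletCharacter.LFunction χ (1 / 2 + 2 * z)‖ *
      Real.exp ((2 * z.re) ^ 2 - (2 * z.im - t0) ^ 2) := by
    intro z
    simp only [hf]
    rw [norm_mul, norm_mul, hwn, one_mul, norm_gauss]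
    simp [hp]
  have hgn : ∀ z : ℂ, ‖g z‖ = Real.exp (((2 * z.re) ^ 2 - (2 * z.im - t0) ^ 2) / 2) := by
    intro z
    simp only [hg]
    rw [norm_exp]
    congr 1
    have : ((2 * z - p) ^ 2 / 2).re = ((2 * z - p) ^ 2).re / 2 := by
      have h2 : (2 : ℂ) = ((2 : ℝ) : ℂ) := by push_cast; rfl
      conv_lhs => rw [show ((2 * z - p) ^ 2 / 2 : ℂ) = (2 * z - p) ^ 2 / ((2 : ℝ) : ℂ) by
        rw [← h2]]
      rw [div_ofReal_re]
    rw [this, sq, mul_re]
    have e1 : (2 * z - p).re = 2 * z.re := by simp [hp]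
    have e2 : (2 * z - p).im = 2 * z.im - t0 := by simp [hp]
    rw [e1, e2]
    ring
  have hresq : ∀ z ∈ closure U, (2 * z.re) ^ 2 ≤ 1 := by
    intro z hz
    obtain ⟨h1, h2⟩ := hx z hz
    nlinarith
  have hRim : ∀ (R : ℝ) (z : ℂ), z ∈ closure U → |R| + 1 ≤ ‖z‖ → R ≤ |2 * z.im| := by
    intro R z hz h
    obtain ⟨h1, h2, -⟩ := hcl z hz
    have h3 := norm_le_abs_re_add_abs_im z
    rw [abs_of_nonneg h1] at h3
    rw [abs_mul, abs_two]
    have h4 : b ≤ 1 := by rw [hb]; norm_num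
    linarith [le_abs_self R, abs_nonneg z.im]
  have hE1 : Real.exp 1 ≤ 3 := by linarith [Real.exp_one_lt_d9]
  have hdecay : ∀ ε > 0, ∃ R : ℝ, ∀ z ∈ closure U, R ≤ ‖z‖ → ‖f z‖ ≤ ε ∧ ‖g z‖ ≤ ε := by
    intro ε hε
    obtain ⟨R, hR⟩ := poly_gauss_small t0 (G * 3) ε hε
    refine ⟨|R| + 1, fun z hz hRz => ?_⟩
    have h1 := hR (2 * z.im) (hRim R z hz hRz)
    have h2 := hresq z hz
    constructor
    · refine le_trans ?_ h1
      rw [hfn]
      calc _ ≤ (G * (1 + |2 * z.im|)) *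
            (Real.exp 1 * Real.exp (-(2 * z.im - t0) ^ 2 / 2)) := by
            apply mul_le_mul (hLb z hz) _ (Real.exp_pos _).le (by positivity)
            rw [← Real.exp_add]
            apply Real.exp_le_exp.mpr
            nlinarith [sq_nonneg (2 * z.im - t0)]
        _ ≤ (G * (1 + |2 * z.im|)) *
            (3 * Real.exp (-(2 * z.im - t0) ^ 2 / 2)) := by gcongr
        _ = _ := by ring
    · refine le_trans ?_ h1
      rw [hgn]
      have h5 : Real.exp (((2 * z.re) ^ 2 - (2 * z.im - t0) ^ 2) / 2) ≤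
          3 * Real.exp (-(2 * z.im - t0) ^ 2 / 2) := by
        calc _ ≤ Real.exp 1 * Real.exp (-(2 * z.im - t0) ^ 2 / 2) := by
              rw [← Real.exp_add]
              apply Real.exp_le_exp.mpr
              nlinarith [sq_nonneg (2 * z.re)]
          _ ≤ _ := by gcongr
      refine h5.trans ?_
      apply mul_le_mul_of_nonneg_right _ (Real.exp_pos _).le
      have h7 : 0 ≤ |2 * z.im| := abs_nonneg _
      nlinarith
  have hratio : ∀ ε > 0, ∃ R : ℝ, ∀ z ∈ A, R ≤ ‖z‖ → ‖f z‖ ≤ ε * (g z).re := by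
    intro ε hε
    obtain ⟨R, hR⟩ := poly_gauss_small t0 G ε hε
    refine ⟨|R| + 1, fun z hz hRz => ?_⟩
    have h1 := hR (2 * z.im) (hRim R z hz.1 hRz)
    have h0 : z.re = 0 := hz.2
    rw [hfn, h0]
    simp only [hg]
    rw [hexp2 z h0, ofReal_re]
    calc _ ≤ (G * (1 + |2 * z.im|)) * (Real.exp (-(2 * z.im - t0) ^ 2 / 2) *
          Real.exp (-(2 * z.im - t0) ^ 2 / 2)) := by
          apply mul_le_mul (hLb z hz.1) _ (Real.exp_pos _).le (by positivity)
          rw [← Real.exp_add]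
          apply Real.exp_le_exp.mpr
          linarith
      _ = (G * (1 + |2 * z.im|) * Real.exp (-(2 * z.im - t0) ^ 2 / 2)) *
          Real.exp (-(2 * z.im - t0) ^ 2 / 2) := by ring
      _ ≤ _ := mul_le_mul_of_nonneg_right h1 (Real.exp_pos _).le
  have hg2 : ∀ z ∈ closure U, ‖g z‖ ≤ 2 := by
    intro z hz
    rw [hgn]
    have h2 := hresq z hz
    have hE2 : Real.exp (1 / 2) ≤ 2 := by
      have := Real.exp_bound_div_one_sub_of_interval (x := 1 / 2) (by norm_num) (by norm_num)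
      norm_num at this ⊢
      linarith
    refine le_trans (Real.exp_le_exp.mpr ?_) hE2
    nlinarith [sq_nonneg (2 * z.im - t0)]
  have hDb : ∀ z ∈ D, (∀ r : ℝ, 0 ≤ r → r ≤ 1 → c ≤ ‖1 - r * X z‖) ∧ ‖f z‖ ≤ F0 ∧
      ‖g z‖ ≤ 2 := by
    intro z hz
    obtain ⟨-, -, h3⟩ := hcl z hz.1
    obtain ⟨h1, h2⟩ := hx z hz.1
    refine ⟨?_, ?_, hg2 z hz.1⟩
    · intro r hr0 hr1
      rcases hz.2 with h | h
      · have h4 := hXn z hz.1
        rw [h] at h4
        have h5 : ‖(1 : ℂ)‖ - ‖(r : ℂ) * X z‖ ≤ ‖1 - r * X z‖ := norm_sub_norm_le _ _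
        rw [norm_one, norm_mul, norm_real, Real.norm_eq_abs, abs_of_nonneg hr0] at h5
        have h6 : r * ‖X z‖ ≤ Real.exp (-(2 * b)) := by nlinarith [norm_nonneg (X z)]
        have h7 : -(2 * b) = -1 := by rw [hb]; norm_num
        rw [h7] at h6
        linarith
      · have h4 := hcbot (2 * z.re) (2 * z.im) r h1 h2 h hr0 hr1
        simp only [hX]
        rw [half_add2]
        exact h4
    · rw [hfn]
      rcases hz.2 with h | h
      · have h4 := hFside (2 * z.im) h3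
        refine le_trans ?_ h4
        rw [half_add2, h]
        have h5 : (1 / 2 + 2 * b : ℝ) = 3 / 2 := by rw [hb]; norm_num
        rw [h5]
        apply mul_le_mul_of_nonneg_left _ (norm_nonneg _)
        apply Real.exp_le_exp.mpr
        have := hresq z hz.1
        rw [h] at this
        linarith
      · have h4 := hFbot (2 * z.re) (2 * z.im) h1 h2 h
        refine le_trans ?_ h4
        rw [half_add2]
        apply mul_le_mul_of_nonneg_left _ (norm_nonneg _)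
        apply Real.exp_le_exp.mpr
        have := hresq z hz.1
        nlinarith [sq_nonneg (2 * z.im - t0)]
  -- the correction is small
  have hE2 : Real.exp 2 ≤ 9 := by
    have : Real.exp 2 = Real.exp 1 * Real.exp 1 := by rw [← Real.exp_add]; norm_num
    rw [this]
    have := Real.exp_pos 1
    nlinarith
  have hsum : ∀ (z : ℂ) (K : ℝ), (∀ j ∈ J, ‖tau X j z‖ ≤ K) →
      ‖∑ j ∈ J, (cf j : ℂ) * tau X j z‖ ≤ Sc * K := by
    intro z K hK
    refine (norm_sum_le _ _).trans ?_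
    rw [hSc, Finset.sum_mul]
    apply Finset.sum_le_sum
    intro j hj
    rw [norm_mul, norm_real, Real.norm_eq_abs, abs_of_nonneg (hcf j hj)]
    exact mul_le_mul_of_nonneg_left (hK j hj) (hcf j hj)
  have hdist : ∀ z ∈ closure U, ∀ j ∈ J, 1 / 2 ≤ ‖z - ⟨0, j / 2⟩‖ → ‖tau X j z‖ ≤
      4 * Real.exp (2 * ((2 * z.re) ^ 2 - (2 * z.im - j) ^ 2)) := by
    intro z hz j hj h
    have := tau_bound (hXj j hj) (hXle z hz) (by norm_num : (0 : ℝ) < 1 / 2) h
    norm_num at this ⊢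
    exact this
  have hT : ∀ ε > 0, ∃ R : ℝ, ∀ z ∈ closure U, R ≤ ‖z‖ →
      ‖∑ j ∈ J, (cf j : ℂ) * tau X j z‖ ≤ ε * Real.exp (-(2 * z.im - t0) ^ 2 / 2) ∧
      ‖∑ j ∈ J, (cf j : ℂ) * tau X j z‖ ≤ ε := by
    intro ε hε
    set K : ℝ := 4 * Sc * Real.exp (2 + 6 * W ^ 2) with hK
    have hK0 : 0 ≤ K := by positivity
    obtain ⟨R, hR⟩ := poly_gauss_small t0 K ε hε
    refine ⟨|R| + 1 + (|t0| + |W| + 2), fun z hz hRz => ?_⟩
    have h1 := hR (2 * z.im) (hRim R z hz (by linarith [abs_nonneg t0, abs_nonneg W]))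
    set u : ℝ := 2 * z.im - t0 with hu
    have h2 : ‖∑ j ∈ J, (cf j : ℂ) * tau X j z‖ ≤
        Sc * (4 * (Real.exp (2 + 6 * W ^ 2) * (Real.exp (-u ^ 2 / 2) * Real.exp (-u ^ 2 / 2)))) := by
      apply hsum
      intro j hj
      have hjW := hJW j hj
      have hW0 : 0 ≤ W := (abs_nonneg _).trans hjW
      have hjW2 : (j - t0) ^ 2 ≤ W ^ 2 := by
        rw [← sq_abs (j - t0)]
        exact pow_le_pow_left₀ (abs_nonneg _) hjW 2
      have h3 : 1 / 2 ≤ ‖z - ⟨0, j / 2⟩‖ := by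
        have h4 : ‖z‖ - ‖(⟨0, j / 2⟩ : ℂ)‖ ≤ ‖z - ⟨0, j / 2⟩‖ := norm_sub_norm_le _ _
        have h5 : ‖(⟨0, j / 2⟩ : ℂ)‖ ≤ |j| / 2 := by
          refine (norm_le_abs_re_add_abs_im _).trans ?_
          simp only [abs_zero, zero_add]
          rw [abs_div, abs_two]
        have h6 : |j| ≤ |t0| + W := by
          calc |j| = |t0 + (j - t0)| := by ring_nf
            _ ≤ |t0| + |j - t0| := abs_add_le _ _
            _ ≤ _ := by linarith
        have h7 := le_abs_self W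
        have h8 := abs_nonneg R
        have h9 := abs_nonneg t0
        linarith
      refine (hdist z hz j hj h3).trans ?_
      apply mul_le_mul_of_nonneg_left _ (by norm_num)
      rw [← Real.exp_add, ← Real.exp_add]
      apply Real.exp_le_exp.mpr
      have h10 := hresq z hz
      have h11 : 2 * z.im - j = u - (j - t0) := by rw [hu]; ring
      rw [h11]
      have h12 : 0 ≤ (u - 2 * (j - t0)) ^ 2 := sq_nonneg _
      have h13 : 0 ≤ (j - t0) ^ 2 := sq_nonneg _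
      have h14 : 2 * (u - (j - t0)) ^ 2 = u ^ 2 + (u - 2 * (j - t0)) ^ 2 - 2 * (j - t0) ^ 2 := by
        ring
      linarith
    have h3 : Sc * (4 * (Real.exp (2 + 6 * W ^ 2) * (Real.exp (-u ^ 2 / 2) *
        Real.exp (-u ^ 2 / 2)))) = (K * Real.exp (-u ^ 2 / 2)) * Real.exp (-u ^ 2 / 2) := by
      rw [hK]; ring
    have h4 : K * Real.exp (-u ^ 2 / 2) ≤ ε := by
      refine le_trans ?_ h1
      apply mul_le_mul_of_nonneg_right _ (Real.exp_pos _).le
      have := abs_nonneg (2 * z.im)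
      nlinarith
    have h5 : ‖∑ j ∈ J, (cf j : ℂ) * tau X j z‖ ≤ ε * Real.exp (-u ^ 2 / 2) := by
      refine h2.trans ?_
      rw [h3]
      exact mul_le_mul_of_nonneg_right h4 (Real.exp_pos _).le
    refine ⟨h5, h5.trans ?_⟩
    have h6 : Real.exp (-u ^ 2 / 2) ≤ 1 := by
      rw [Real.exp_le_one_iff]
      nlinarith [sq_nonneg u]
    nlinarith
  have hdecay2 : ∀ ε > 0, ∃ R : ℝ, ∀ z ∈ closure U, R ≤ ‖z‖ → ‖f2 z‖ ≤ ε ∧ ‖g z‖ ≤ ε := by
    intro ε hε
    obtain ⟨R1, hR1⟩ := hdecay (ε / 2) (by linarith)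
    obtain ⟨R2, hR2⟩ := hT (ε / 2) (by linarith)
    refine ⟨max R1 R2, fun z hz hR => ?_⟩
    obtain ⟨h1, h2⟩ := hR1 z hz ((le_max_left _ _).trans hR)
    obtain ⟨-, h3⟩ := hR2 z hz ((le_max_right _ _).trans hR)
    constructor
    · simp only [hf2]
      refine (norm_add_le _ _).trans ?_
      linarith
    · linarith
  have hratio2 : ∀ ε > 0, ∃ R : ℝ, ∀ z ∈ A, R ≤ ‖z‖ → ‖f2 z‖ ≤ ε * (g z).re := by
    intro ε hε
    obtain ⟨R1, hR1⟩ := hratio (ε / 2) (by linarith)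
    obtain ⟨R2, hR2⟩ := hT (ε / 2) (by linarith)
    refine ⟨max R1 R2, fun z hz hR => ?_⟩
    have h1 := hR1 z hz ((le_max_left _ _).trans hR)
    obtain ⟨h3, -⟩ := hR2 z hz.1 ((le_max_right _ _).trans hR)
    have h4 : (g z).re = Real.exp (-(2 * z.im - t0) ^ 2 / 2) := by
      simp only [hg]
      rw [hexp2 z hz.2, ofReal_re]
    simp only [hf2]
    refine (norm_add_le _ _).trans ?_
    rw [h4] at h1 ⊢
    linarith
  have hDb2 : ∀ z ∈ D, (∀ r : ℝ, 0 ≤ r → r ≤ 1 → c ≤ ‖1 - r * X z‖) ∧ ‖f2 z‖ ≤ F0 + 36 * Sc ∧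
      ‖g z‖ ≤ 2 := by
    intro z hz
    obtain ⟨h1, h2, h3⟩ := hDb z hz
    refine ⟨h1, ?_, h3⟩
    simp only [hf2]
    refine (norm_add_le _ _).trans ?_
    have h4 : ‖∑ j ∈ J, (cf j : ℂ) * tau X j z‖ ≤ Sc * 36 := by
      apply hsum
      intro j hj
      have h5 : 1 / 2 ≤ ‖z - ⟨0, j / 2⟩‖ := by
        rcases hz.2 with h | h
        · have h6 := abs_re_le_norm (z - ⟨0, j / 2⟩)
          rw [sub_re, h] at h6
          simp only [sub_zero] at h6
          rw [hb] at h6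
          rw [abs_of_nonneg (by norm_num)] at h6
          exact h6
        · have h6 := abs_im_le_norm (z - ⟨0, j / 2⟩)
          rw [sub_im] at h6
          simp only at h6
          have h7 : |s * (2 * z.im) - s * j| = 2 * |z.im - j / 2| := by
            rw [← mul_sub, abs_mul, hs1, one_mul, ← abs_two (α := ℝ), ← abs_mul, abs_two]
            congr 1
            ring
          have h8 : 1 ≤ |s * (2 * z.im) - s * j| := by
            rw [h]
            have := hJ1 j hj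
            rw [abs_sub_comm]
            exact le_trans (by linarith) (le_abs_self _)
          linarith
      refine (hdist z hz.1 j hj h5).trans ?_
      have h6 : Real.exp (2 * ((2 * z.re) ^ 2 - (2 * z.im - j) ^ 2)) ≤ 9 := by
        refine le_trans (Real.exp_le_exp.mpr ?_) hE2
        have := hresq z hz.1
        nlinarith [sq_nonneg (2 * z.im - j)]
      linarith
    linarith
  have hlb := local_bound hUo hAcl inter_subset_left hfr hf2d hgd hXd hX1 hXA hf2A hgA hB (by linarith : 0 < F0 + 36 * Sc)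
    (by norm_num : (0 : ℝ) ≤ 2) hc hpos hdecay2 hratio2 hDb2 (b := b) (t0 := t0 / 2) (δ := δ / 2)
    (by rw [hb]) (by linarith) (by rw [hb]; linarith)
    (by
      intro z h1 h2 h3
      rw [hU, mem_reProdIm]
      refine ⟨⟨by linarith, h2⟩, ht0 (2 * z.im) ?_⟩
      have h4 : 2 * z.im - t0 = 2 * (z.im - t0 / 2) := by ring
      rw [h4, abs_mul, abs_two]
      linarith)
    (by
      intro z h1 h2
      have h5 : |2 * z.im - t0| ≤ 2 := by
        have h4 : 2 * z.im - t0 = 2 * (z.im - t0 / 2) := by ring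
        rw [h4, abs_mul, abs_two]
        linarith
      have h3 : z ∈ closure U := by
        rw [hclU, mem_reProdIm]
        exact ⟨⟨by linarith, by linarith⟩, subset_closure (ht0 (2 * z.im) h5)⟩
      refine ⟨⟨h3, Or.inl h1⟩, h3, lt_of_le_of_lt (hXn z h3) ?_⟩
      rw [h1, Real.exp_lt_one_iff]
      linarith)
  have h1 : ‖DirichletCharacter.LFunction χ ⟨1 / 2 + δ, t0⟩‖ ≤ ‖f ⟨δ / 2, t0 / 2⟩‖ := by
    rw [hfn, half_add2]
    simp only
    have e1 : 2 * (δ / 2) = δ := by ring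
    have e2 : 2 * (t0 / 2) = t0 := by ring
    rw [e1, e2]
    have h2 : (1 : ℝ) ≤ Real.exp (δ ^ 2 - (t0 - t0) ^ 2) := by
      apply Real.one_le_exp
      nlinarith
    nlinarith [norm_nonneg (DirichletCharacter.LFunction χ ⟨1 / 2 + δ, t0⟩)]
  have h2 : ‖g ⟨δ / 2, t0 / 2⟩‖ ≤ 2 := by
    apply hg2
    rw [hclU, mem_reProdIm]
    refine ⟨⟨by simp only; linarith, by simp only; rw [hb]; linarith⟩,
      subset_closure (ht0 (2 * (t0 / 2)) ?_)⟩
    have e2 : 2 * (t0 / 2) - t0 = 0 := by ring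
    rw [e2, abs_zero]
    norm_num
  have h3 : F0 + 36 * Sc + 2 * B * 2 = F0 + 36 * Sc + 4 * B := by ring
  rw [h3] at hlb
  set P : ℂ := ⟨δ / 2, t0 / 2⟩ with hP
  have hPU : P ∈ closure U := by
    rw [hclU, mem_reProdIm]
    refine ⟨⟨by rw [hP]; simp only; linarith, by rw [hP]; simp only; rw [hb]; linarith⟩,
      subset_closure (ht0 (2 * P.im) ?_)⟩
    rw [hP]
    simp only
    have e2 : 2 * (t0 / 2) - t0 = 0 := by ring
    rw [e2, abs_zero]
    norm_num
  have h5 : ‖∑ j ∈ J, (cf j : ℂ) * tau X j P‖ ≤ Sc * (36 / δ) := by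
    apply hsum
    intro j hj
    have h6 : δ / 2 ≤ ‖P - ⟨0, j / 2⟩‖ := by
      have h7 := abs_re_le_norm (P - ⟨0, j / 2⟩)
      have h8 : (P - ⟨0, j / 2⟩ : ℂ).re = δ / 2 := by
        rw [sub_re, hP]
        simp
      rw [h8, abs_of_pos (by linarith)] at h7
      exact h7
    have h7 := tau_bound (hXj j hj) (hXle P hPU) (by linarith : 0 < δ / 2) h6
    refine h7.trans ?_
    have h8 : Real.exp (2 * ((2 * P.re) ^ 2 - (2 * P.im - j) ^ 2)) ≤ 9 := by
      refine le_trans (Real.exp_le_exp.mpr ?_) hE2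
      have := hresq P hPU
      nlinarith [sq_nonneg (2 * P.im - j)]
    calc 2 / (δ / 2) * Real.exp (2 * ((2 * P.re) ^ 2 - (2 * P.im - j) ^ 2)) ≤ 2 / (δ / 2) * 9 := by
          gcongr
      _ = 36 / δ := by field_simp; norm_num
  have h6 : ‖f P‖ ≤ ‖f2 P‖ + ‖∑ j ∈ J, (cf j : ℂ) * tau X j P‖ := by
    have h7 : f P = f2 P - ∑ j ∈ J, (cf j : ℂ) * tau X j P := by
      simp only [hf2]; ring
    rw [h7]
    exact norm_sub_le _ _
  have h7 : Sc * (36 / δ) = 36 * Sc / δ := by ring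
  have h4 : B * ‖g ⟨δ / 2, t0 / 2⟩‖ ≤ B * 2 := mul_le_mul_of_nonneg_left h2 hB
  linarith

end H429.GS
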