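import Pool.Agent.H429R5.GS.G

/-!
The bound to the right of the critical line by the sum of the negative values at the Gram points.
-/

open Complex Filter Topology Set Metric MeasureTheory

namespace H429.GS

open H370.DL H429.GP H429.MG

/-- bound slightly to the right of the critical line by the sum of the negative values -/
theorem right_bound3 {q : ℕ} [NeZero q] {χ : DirichletCharacter ℂ q} (hχ : χ.IsPrimitive)
    (haa : (aa χ).re = 0) {C0 : ℝ} (hC00 : 0 ≤ C0)
    (hld : ∀ y : ℝ, 1 ≤ |y| → ‖logDeriv (XX χ) ⟨1 / 2, y⟩ + (Real.log |y| : ℂ)‖ ≤ C0)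
    (hldim : ∀ y : ℝ, y ≠ 0 → (logDeriv (XX χ) ⟨1 / 2, y⟩).im = 0)
    {ω : ℂ} (hω : ‖ω‖ = 1) :
    ∃ C : ℝ, 0 < C ∧ ∀ S : Finset ℝ, (∀ g ∈ S, XX χ ⟨1 / 2, g⟩ = ω ^ 2) →
      ∀ t0 δ : ℝ, (∀ g : ℝ, |g - t0| ≤ 2 * √(Real.log (q * (1 + |t0|))) →
        XX χ ⟨1 / 2, g⟩ = ω ^ 2 →
        ((starRingEnd ℂ) ω * DirichletCharacter.LFunction χ ⟨1 / 2, g⟩).re < 0 → g ∈ S) →
        0 < δ → δ < 1 / 4 →
        ‖DirichletCharacter.LFunction χ ⟨1 / 2 + δ, t0⟩‖ ≤ C / δ * (1 +
          (∑ g ∈ S with |g - t0| ≤ 2 * √(Real.log (q * (1 + |t0|))),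
            ‖DirichletCharacter.LFunction χ ⟨1 / 2, g⟩‖ * Real.exp (-(g - t0) ^ 2)) /
              (1 + Real.log (q * (1 + |t0|)))) := by
  obtain ⟨cX, hcX0, hcX⟩ := XX_decay2
  have hcX' := hcX q χ hχ haa
  set Q : ℝ := Real.exp (cX + 1) with hQ
  have hQ1 : 1 ≤ Q := Real.one_le_exp (by linarith)
  obtain ⟨ya, ha1, ha2, ca, hca, hba⟩ := exists_bot2 hχ hcX' hω (s := 1) (Or.inl rfl)
    (Q := Q) le_rfl hQ1
  obtain ⟨yb, hb1, hb2, cb, hcb, hbb⟩ := exists_bot2 hχ hcX' hω (s := -1) (Or.inr rfl)
    (Q := Q) le_rfl hQ1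
  have hbot : ∀ s : ℝ, (s = 1 ∨ s = -1) → ∃ y1 : ℝ, Q ≤ y1 ∧ y1 ≤ Q + 1 ∧
      BotOK q χ ω 1 s y1 (min ca cb) := by
    intro s hs
    rcases hs with h | h
    · rw [h]; exact ⟨ya, ha1, ha2, hba.mono (min_le_left _ _)⟩
    · rw [h]; exact ⟨yb, hb1, hb2, hbb.mono (min_le_right _ _)⟩
  have hE1 : Real.exp 1 ≤ 3 := by linarith [Real.exp_one_lt_d9]
  have hq := one_le_q q
  set cs : ℝ := 1 - Real.exp (-1) with hcs
  have hcs0 : 0 < cs := by
    rw [hcs]
    have : Real.exp (-1) < 1 := by rw [Real.exp_lt_one_iff]; norm_num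
    linarith
  set c : ℝ := min cs (min ca cb) with hc
  have hcpos : 0 < c := lt_min hcs0 (lt_min hca hcb)
  set Z : ℝ := ∑' n : ℕ, 1 / (n : ℝ) ^ (1 + (1 / 2 : ℝ)) with hZ
  have hZ0 : 0 ≤ Z := tsum_nonneg fun n => by positivity
  set F0 : ℝ := 3 * Z + 21 * (q * (2 + Q)) with hF0
  have hF0pos : 0 < F0 := by positivity
  have hlq0 : 0 ≤ Real.log q := Real.log_nonneg hq
  set Q3 : ℝ := Real.exp (2 * C0 + Real.log q + 2) with hQ3
  have hQ30 : 0 < Q3 := Real.exp_pos _
  set H : ℝ := 2 * Q + 36 + Real.log q + Q3 with hH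
  have hH0 : 0 < H := by positivity
  set C3 : ℝ := 17 * (q * (1 + H)) with hC3
  have hC3pos : 0 < C3 := by positivity
  refine ⟨104 * ((F0 + 136) / c) + 68 + 7488 / c + 72 + C3, by positivity, ?_⟩
  intro S hSX t0 δ hS hδ hδ4
  set P : ℝ := q * (1 + |t0|) with hP
  have hP1 : 1 ≤ P := by rw [hP]; nlinarith [abs_nonneg t0]
  have hP0 : 0 < P := by linarith
  have hlogP : 0 ≤ Real.log P := Real.log_nonneg hP1
  set ℓ : ℝ := 1 + Real.log P with hℓ
  have hℓ1 : 1 ≤ ℓ := by linarith
  set W : ℝ := 2 * √(Real.log P) with hW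
  set J : Finset ℝ := S.filter (fun g => |g - t0| ≤ W) with hJ
  set N : ℝ := (∑ g ∈ J, ‖DirichletCharacter.LFunction χ ⟨1 / 2, g⟩‖ *
    Real.exp (-(g - t0) ^ 2)) / ℓ with hN
  have hN0 : 0 ≤ N := div_nonneg (Finset.sum_nonneg fun g _ => by positivity) (by linarith)
  rcases le_or_gt |t0| H with ht | ht
  · have h1 := growth hχ (η := 1 / 8) (by norm_num) (s := ⟨1 / 2 + δ, t0⟩)
      (by simp only; linarith) (by simp only; linarith)
    have h2 : (9 + 1 / (1 / 8)) * (q * (1 + |t0|)) ≤ C3 := by
      rw [hC3]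
      have h4 : (q : ℝ) * (1 + |t0|) ≤ q * (1 + H) :=
        mul_le_mul_of_nonneg_left (by linarith) (by linarith)
      norm_num
      linarith
    have h3 : C3 ≤ C3 / δ * (1 + N) := by
      have e1 : C3 ≤ C3 / δ := by
        rw [le_div_iff₀ hδ]
        nlinarith
      have e2 : 0 < C3 / δ := by positivity
      nlinarith
    refine (h1.trans (h2.trans h3)).trans ?_
    have h5 : C3 / δ ≤ (104 * ((F0 + 136) / c) + 68 + 7488 / c + 72 + C3) / δ := by
      gcongr
      have : 0 ≤ 104 * ((F0 + 136) / c) + 68 + 7488 / c + 72 := by positivity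
      linarith
    exact mul_le_mul_of_nonneg_right h5 (by positivity)
  · obtain ⟨s, hs1, hst⟩ : ∃ s : ℝ, (s = 1 ∨ s = -1) ∧ s * t0 = |t0| := by
      rcases le_or_gt 0 t0 with h | h
      · exact ⟨1, Or.inl rfl, by rw [one_mul, abs_of_nonneg h]⟩
      · exact ⟨-1, Or.inr rfl, by rw [neg_one_mul, abs_of_neg h]⟩
    obtain ⟨y1, h1, h2, h3⟩ := hbot s hs1
    have habs : ∀ y : ℝ, s * y ≤ |y| := by
      intro y
      rcases hs1 with h | h
      · rw [h, one_mul]; exact le_abs_self y
      · rw [h, neg_one_mul]; exact neg_le_abs y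
    have hge1 : ∀ y : ℝ, y1 ≤ s * y → 1 ≤ |y| := fun y hy =>
      hQ1.trans (h1.trans (hy.trans (habs y)))
    have hsabs : |s| = 1 := by
      rcases hs1 with h | h <;> rw [h] <;> simp
    have hW2 : W ≤ |t0| / 2 := by
      have e1 : √(Real.log P) ≤ |t0| / 4 := by
        rw [Real.sqrt_le_left (by positivity)]
        have e2 : Real.log P = Real.log q + Real.log (1 + |t0|) := by
          rw [hP, Real.log_mul (by linarith) (by positivity)]
        have e3 : Real.log (1 + |t0|) ≤ |t0| := by
          have := Real.log_le_sub_one_of_pos (show 0 < 1 + |t0| by positivity)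
          linarith
        have e4 : 36 ≤ |t0| := by linarith
        have e5 : Real.log q ≤ |t0| := by linarith
        nlinarith
      rw [hW]
      linarith
    have hJfacts : ∀ j : ℝ, |j - t0| ≤ W → y1 + 1 ≤ s * j ∧
        ℓ / 2 ≤ -(2 * (logDeriv (XX χ) ⟨1 / 2, j⟩).re) := by
      intro j hj
      have e1 : |t0| / 2 ≤ s * j := by
        have e2 : s * j = s * t0 + s * (j - t0) := by ring
        have e3 : -|j - t0| ≤ s * (j - t0) := by
          have := neg_abs_le (s * (j - t0))
          rw [abs_mul, hsabs, one_mul] at this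
          exact this
        rw [e2, hst]
        linarith
      refine ⟨by linarith, ?_⟩
      have e4 : |t0| / 2 ≤ |j| := e1.trans (habs j)
      have e5 : 1 ≤ |j| := by linarith
      have e6 := (abs_le.mp ((abs_re_le_norm _).trans (hld j e5))).2
      rw [add_re, ofReal_re] at e6
      have ht00 : 0 < |t0| := by linarith
      have e7 : Real.log |t0| - Real.log 2 ≤ Real.log |j| := by
        rw [← Real.log_div (by linarith) (by norm_num)]
        exact Real.log_le_log (by positivity) e4
      have e8 : Real.log P ≤ Real.log q + (Real.log |t0| + Real.log 2) := by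
        rw [hP, Real.log_mul (by linarith) (by positivity)]
        have e9 : Real.log (1 + |t0|) ≤ Real.log (|t0| * 2) :=
          Real.log_le_log (by positivity) (by linarith)
        rw [Real.log_mul (by linarith) (by norm_num)] at e9
        linarith
      have e10 : 2 * C0 + Real.log q + 2 ≤ Real.log |t0| := by
        rw [Real.le_log_iff_exp_le ht00]
        linarith
      have e11 := Real.log_two_lt_d9
      rw [hℓ]
      linarith
    have hgram : ∀ y : ℝ, XX χ ⟨1 / 2, y⟩ = ω ^ 2 →
        0 ≤ ((starRingEnd ℂ) ω * DirichletCharacter.LFunction χ ⟨1 / 2, y⟩).re *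
          Real.exp (-(y - t0) ^ 2) +
          (if y ∈ J then (2 / ℓ * (‖DirichletCharacter.LFunction χ ⟨1 / 2, y⟩‖ *
            Real.exp (-(y - t0) ^ 2))) * (-(2 * (logDeriv (XX χ) ⟨1 / 2, y⟩).re)) else 0) +
          34 * Real.exp (-(y - t0) ^ 2 / 2) := by
      intro y hy
      rcases le_or_gt |y - t0| W with hclose | hfar
      · have h34 : 0 ≤ 34 * Real.exp (-(y - t0) ^ 2 / 2) := by positivity
        obtain ⟨-, hlow⟩ := hJfacts y hclose
        have hlow0 : 0 ≤ -(2 * (logDeriv (XX χ) ⟨1 / 2, y⟩).re) := by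
          have : 0 ≤ ℓ / 2 := by linarith
          linarith
        rcases lt_or_ge ((starRingEnd ℂ) ω * DirichletCharacter.LFunction χ ⟨1 / 2, y⟩).re 0
          with hneg | hpos
        · have hyJ : y ∈ J := by
            rw [hJ, Finset.mem_filter]
            exact ⟨hS y hclose hy hneg, hclose⟩
          rw [if_pos hyJ]
          have e1 := (abs_le.mp (abs_re_le_norm ((starRingEnd ℂ) ω *
            DirichletCharacter.LFunction χ ⟨1 / 2, y⟩))).1
          rw [norm_mul, RCLike.norm_conj, hω, one_mul] at e1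
          set v : ℝ := ‖DirichletCharacter.LFunction χ ⟨1 / 2, y⟩‖ *
            Real.exp (-(y - t0) ^ 2) with hv
          have hv0 : 0 ≤ v := by positivity
          have e2 : v ≤ 2 / ℓ * v * (-(2 * (logDeriv (XX χ) ⟨1 / 2, y⟩).re)) := by
            calc v = 2 / ℓ * v * (ℓ / 2) := by field_simp
              _ ≤ _ := mul_le_mul_of_nonneg_left hlow (by positivity)
          have e3 := mul_le_mul_of_nonneg_right e1 (Real.exp_pos (-(y - t0) ^ 2)).le
          rw [neg_mul] at e3
          linarith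
        · have e1 : 0 ≤ ((starRingEnd ℂ) ω * DirichletCharacter.LFunction χ ⟨1 / 2, y⟩).re *
              Real.exp (-(y - t0) ^ 2) := by positivity
          split_ifs
          · have e2 : 0 ≤ (2 / ℓ * (‖DirichletCharacter.LFunction χ ⟨1 / 2, y⟩‖ *
              Real.exp (-(y - t0) ^ 2))) * (-(2 * (logDeriv (XX χ) ⟨1 / 2, y⟩).re)) := by
              positivity
            linarith
          · linarith
      · have hyJ : y ∉ J := by
          rw [hJ, Finset.mem_filter]
          rintro ⟨-, h⟩
          linarith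
        rw [if_neg hyJ, add_zero]
        set u : ℝ := |y - t0| with hu
        have hu0 : 0 ≤ u := abs_nonneg _
        have hsq : (y - t0) ^ 2 = u ^ 2 := (sq_abs _).symm
        rw [hsq]
        have h1 : 4 * Real.log P ≤ u ^ 2 := by
          have h2 : (2 * √(Real.log P)) ^ 2 ≤ u ^ 2 := by
            apply pow_le_pow_left₀ (by positivity) hfar.le
          rw [mul_pow, Real.sq_sqrt hlogP] at h2
          linarith
        have hη : (0 : ℝ) < 1 / 8 := by norm_num
        have hgr := growth hχ hη (s := ⟨1 / 2, y⟩) (by norm_num) (by simp only; linarith)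
        simp only at hgr
        have h2 : (q : ℝ) * (1 + |y|) ≤ P * (1 + u) := by
          have h3 : |y| ≤ |t0| + |y - t0| := by
            calc |y| = |t0 + (y - t0)| := by ring_nf
              _ ≤ _ := abs_add_le _ _
          have h4 : 1 + |y| ≤ (1 + |t0|) * (1 + u) := by
            nlinarith [abs_nonneg t0]
          calc (q : ℝ) * (1 + |y|) ≤ q * ((1 + |t0|) * (1 + u)) := by gcongr
            _ = _ := by rw [hP]; ring
        have h3 : -((9 + 1 / (1 / 8)) * (P * (1 + u))) ≤
            ((starRingEnd ℂ) ω * DirichletCharacter.LFunction χ ⟨1 / 2, y⟩).re := by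
          have e1 := (abs_le.mp (abs_re_le_norm ((starRingEnd ℂ) ω *
            DirichletCharacter.LFunction χ ⟨1 / 2, y⟩))).1
          rw [norm_mul, RCLike.norm_conj, hω, one_mul] at e1
          have e2 : (9 + 1 / (1 / 8 : ℝ)) * (q * (1 + |y|)) ≤
              (9 + 1 / (1 / 8)) * (P * (1 + u)) := by
            gcongr
          linarith
        have h4 := gram_far (y := y) (t0 := t0) (q := q) (B0 := 0) hη hu0 hP0 h1 hP1 h3
        have h5 : 2 * (9 + 1 / (1 / 8 : ℝ)) = 34 := by norm_num
        rw [h5] at h4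
        linarith
    have hSc : ∑ j ∈ J, 2 / ℓ * (‖DirichletCharacter.LFunction χ ⟨1 / 2, j⟩‖ *
        Real.exp (-(j - t0) ^ 2)) = 2 * N := by
      rw [← Finset.mul_sum, hN]
      ring
    have hmain := app_local3 (χ := χ) (cX := cX) (G := 7 * q) (by nlinarith) (s := s) (y1 := y1)
      (by linarith)
      (fun x y hx0 hx1 hy => hcX' x y hx0 hx1 (hge1 y hy))
      (fun x y hx0 hx1 hy => growth2 hχ hx0 hx1 (hge1 y hy)) hχ hω
      (by
        intro y hy
        have h4 : Q ≤ |y| := h1.trans (hy.trans (habs y))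
        rw [Real.le_log_iff_exp_le (by positivity)]
        nlinarith [abs_nonneg y])
      (by norm_num : (0 : ℝ) ≤ 34) hF0pos hcpos hsabs (J := J)
      (cf := fun j => 2 / ℓ * (‖DirichletCharacter.LFunction χ ⟨1 / 2, j⟩‖ *
        Real.exp (-(j - t0) ^ 2))) (W := W)
      (fun j _ => by positivity)
      (fun j hj => (Finset.mem_filter.mp hj).2)
      (fun j hj => (hJfacts j (Finset.mem_filter.mp hj).2).1)
      (fun j hj => hSX j (Finset.mem_filter.mp hj).1)
      (fun j hj => hldim j (by
        intro h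
        have := (hJfacts j (Finset.mem_filter.mp hj).2).1
        rw [h, mul_zero] at this
        linarith))
      hgram
      (by
        intro y hy
        have h4 := norm_L_right (χ := χ) (η := 1 / 2) (by norm_num) (s := ⟨3 / 2, y⟩)
          (by norm_num)
        have h5 : Real.exp (1 - (y - t0) ^ 2) ≤ 3 := by
          refine (Real.exp_le_exp.mpr ?_).trans hE1
          nlinarith [sq_nonneg (y - t0)]
        have h6 : 0 ≤ 21 * (q * (2 + Q)) := by positivity
        calc _ ≤ Z * 3 := mul_le_mul h4 h5 (Real.exp_pos _).le hZ0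
          _ ≤ F0 := by rw [hF0]; linarith)
      (by
        intro x y hx0 hx1 hy
        have h4 : |y| = y1 := by
          have h5 : |s * y| = |y| := by
            rw [abs_mul]
            rcases hs1 with h | h <;> rw [h] <;> simp
          rw [← h5, hy, abs_of_nonneg (by linarith)]
        have h6 := growth2 hχ hx0 hx1 (hge1 y (by linarith))
        rw [h4] at h6
        have h7 : 7 * (q : ℝ) * (1 + y1) ≤ 7 * (q * (2 + Q)) := by
          have e2 : (q : ℝ) * (1 + y1) ≤ q * (2 + Q) :=
            mul_le_mul_of_nonneg_left (by linarith) (by linarith)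
          linarith
        calc _ ≤ (7 * (q * (2 + Q))) * 3 :=
              mul_le_mul (h6.trans h7) hE1 (Real.exp_pos _).le (by positivity)
          _ ≤ F0 := by
            rw [hF0]
            linarith)
      (min_le_left _ _)
      (by
        intro x y r hx0 hx1 hy hr0 hr1
        exact (min_le_right _ _).trans (h3 x y r hx0 hx1 hy hr0 hr1))
      hδ (by linarith)
      (by
        intro y hy
        have h4 : s * y = s * t0 + s * (y - t0) := by ring
        have h5 : -2 ≤ s * (y - t0) := by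
          have h6 := abs_le.mp hy
          rcases hs1 with h | h
          · rw [h, one_mul]; exact h6.1
          · rw [h, neg_one_mul]; linarith [h6.2]
        rw [h4, hst]
        linarith)
    refine hmain.trans ?_
    rw [hSc]
    have e1 : F0 + 36 * (2 * N) + 4 * 34 = (F0 + 136) + 72 * N := by ring
    have e2 : 52 * ((F0 + 36 * (2 * N) + 4 * 34) / c) / (δ / 2) =
        104 * ((F0 + 136) / c) / δ + 7488 / c / δ * N := by
      rw [e1]
      field_simp
      ring
    have e3 : (2 : ℝ) * 34 ≤ 68 / δ := by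
      rw [le_div_iff₀ hδ]
      linarith
    have e4 : 36 * (2 * N) / δ = 72 / δ * N := by ring
    rw [e2, e4]
    have f1 : 0 ≤ 104 * ((F0 + 136) / c) / δ * N := by positivity
    have f2 : 0 ≤ 68 / δ * N := by positivity
    have f3 : 0 ≤ C3 / δ * (1 + N) := by positivity
    have f4 : 0 ≤ 7488 / c / δ := by positivity
    have f5 : 0 ≤ 72 / δ := by positivity
    calc _ ≤ (104 * ((F0 + 136) / c) / δ + 68 / δ + 7488 / c / δ + 72 / δ) * (1 + N) +
          C3 / δ * (1 + N) := by linarith
      _ = _ := by ring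

end H429.GS
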