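import Pool.Agent.H429R4.MG.F6

/-!
Sums over the Gram points with Gaussian weights.
-/

open Complex Filter Topology Set Metric MeasureTheory

namespace H429.GS

open H370.DL H429.GP H429.MG

theorem summable_exp_int : Summable fun k : ℤ => Real.exp (-|(k : ℝ)|) := by
  apply Summable.of_nat_of_neg
  · refine Real.summable_exp_neg_nat.congr fun n => ?_
    congr 1
    simp
  · refine Real.summable_exp_neg_nat.congr fun n => ?_
    congr 1
    simp

theorem gauss_count : ∃ C : ℝ, 0 < C ∧ ∃ Y1 : ℝ, 37 ≤ Y1 ∧ ∀ ω : ℂ, ‖ω‖ = 1 → ∀ t : ℝ, Y1 ≤ t →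
    ∀ J : Finset ℝ, (∀ g ∈ J, |g - t| ≤ 6 * √(ll t) ∧ X1 ⟨1 / 2, g⟩ = ω ^ 2) →
    ∑ g ∈ J, Real.exp (-(g - t) ^ 2 / 2) ≤ C * ll t := by
  obtain ⟨C, hC, Y0, hY0, hcount⟩ := count
  set Z : ℝ := ∑' k : ℤ, Real.exp (-|(k : ℝ)|) with hZ
  have hZ0 : 0 ≤ Z := tsum_nonneg fun k => (Real.exp_pos _).le
  refine ⟨4 * C * Real.exp (3 / 2) * (Z + 1), by positivity, 1700 + 2 * Y0, by linarith, ?_⟩
  intro ω hω t ht J hJ
  have ht0 : 0 ≤ t := by linarith
  have hl1 := one_le_ll ht0
  have hsq : √(ll t) ≤ ll t := by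
    rw [Real.sqrt_le_left (by linarith)]
    nlinarith
  have hw := window_small (g := t) (by linarith)
  have hwin : ∀ g ∈ J, |g - t| ≤ 3 / 10 * t := by
    intro g hg
    have := (hJ g hg).1
    linarith
  rw [← Finset.sum_fiberwise_of_maps_to (t := J.image fun g => ⌊g - t⌋)
    (g := fun g => ⌊g - t⌋) (fun g hg => Finset.mem_image_of_mem _ hg)]
  have hfib : ∀ k ∈ J.image (fun g => ⌊g - t⌋),
      ∑ g ∈ J with ⌊g - t⌋ = k, Real.exp (-(g - t) ^ 2 / 2) ≤
        4 * C * Real.exp (3 / 2) * ll t * Real.exp (-|(k : ℝ)|) := by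
    intro k hk
    obtain ⟨x, hx, hxk⟩ := Finset.mem_image.mp hk
    have hx1 := hwin x hx
    obtain ⟨a1, a2⟩ := abs_le.mp hx1
    have k1 : (k : ℝ) ≤ x - t := by rw [← hxk]; exact Int.floor_le _
    have k2 : x - t < k + 1 := by rw [← hxk]; exact Int.lt_floor_add_one _
    have hcard := hcount ω hω (t + k) (t + k + 1) (by linarith) (by linarith)
      (J.filter fun g => ⌊g - t⌋ = k) (by
        intro g hg
        rw [Finset.mem_filter] at hg
        have g1 : (k : ℝ) ≤ g - t := by rw [← hg.2]; exact Int.floor_le _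
        have g2 : g - t < k + 1 := by rw [← hg.2]; exact Int.lt_floor_add_one _
        exact ⟨by linarith, by linarith, (hJ g hg.1).2⟩)
    have hlog : 1 + Real.log (1 + (t + k + 1)) ≤ 2 * ll t := by
      have h1 : Real.log (1 + (t + k + 1)) ≤ Real.log (2 * (1 + t)) :=
        Real.log_le_log (by linarith) (by linarith)
      rw [Real.log_mul (by norm_num) (by linarith)] at h1
      have h2 := Real.log_two_lt_d9
      unfold ll at hl1 ⊢
      have h3 : 0 ≤ Real.log (1 + t) := Real.log_nonneg (by linarith)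
      linarith
    have hcard2 : ((J.filter fun g => ⌊g - t⌋ = k).card : ℝ) ≤ 4 * C * ll t := by
      refine hcard.trans ?_
      have h1 : t + k + 1 - (t + k) + 1 = (2 : ℝ) := by ring
      rw [h1]
      nlinarith
    have hterm : ∀ g ∈ J.filter (fun g => ⌊g - t⌋ = k), Real.exp (-(g - t) ^ 2 / 2) ≤
        Real.exp (3 / 2) * Real.exp (-|(k : ℝ)|) := by
      intro g hg
      rw [Finset.mem_filter] at hg
      have g1 : (k : ℝ) ≤ g - t := by rw [← hg.2]; exact Int.floor_le _
      have g2 : g - t < k + 1 := by rw [← hg.2]; exact Int.lt_floor_add_one _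
      rw [← Real.exp_add]
      apply Real.exp_le_exp.mpr
      have g3 : |(k : ℝ)| ≤ |g - t| + 1 := by
        have : |(k : ℝ)| ≤ |g - t| + |(k : ℝ) - (g - t)| := by
          calc |(k : ℝ)| = |(g - t) + ((k : ℝ) - (g - t))| := by ring_nf
            _ ≤ _ := abs_add_le _ _
        have h2 : |(k : ℝ) - (g - t)| ≤ 1 := by
          rw [abs_le]
          constructor <;> linarith
        linarith
      have g4 : (g - t) ^ 2 = |g - t| ^ 2 := (sq_abs _).symm
      rw [g4]
      nlinarith [sq_nonneg (|g - t| - 1)]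
    calc ∑ g ∈ J with ⌊g - t⌋ = k, Real.exp (-(g - t) ^ 2 / 2)
        ≤ ∑ g ∈ J with ⌊g - t⌋ = k, Real.exp (3 / 2) * Real.exp (-|(k : ℝ)|) :=
          Finset.sum_le_sum hterm
      _ = ((J.filter fun g => ⌊g - t⌋ = k).card : ℝ) *
          (Real.exp (3 / 2) * Real.exp (-|(k : ℝ)|)) := by
          rw [Finset.sum_const, nsmul_eq_mul]
      _ ≤ (4 * C * ll t) * (Real.exp (3 / 2) * Real.exp (-|(k : ℝ)|)) :=
          mul_le_mul_of_nonneg_right hcard2 (by positivity)
      _ = _ := by ring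
  refine (Finset.sum_le_sum hfib).trans ?_
  rw [← Finset.mul_sum]
  have h1 := summable_exp_int.sum_le_tsum (J.image fun g => ⌊g - t⌋)
    (fun k _ => (Real.exp_pos _).le)
  have h2 : 0 ≤ 4 * C * Real.exp (3 / 2) * ll t := by positivity
  calc _ ≤ 4 * C * Real.exp (3 / 2) * ll t * Z := mul_le_mul_of_nonneg_left h1 h2
    _ ≤ 4 * C * Real.exp (3 / 2) * ll t * (Z + 1) :=
        mul_le_mul_of_nonneg_left (by linarith) h2
    _ = _ := by ring

theorem gauss_int (g a b : ℝ) (hab : a ≤ b) :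
    ∫ t in a..b, Real.exp (-(g - t) ^ 2 / 2) ≤ 3 := by
  have hint : Integrable fun t : ℝ => Real.exp (-(1 / 2) * t ^ 2) :=
    integrable_exp_neg_mul_sq (by norm_num)
  have hint2 : Integrable fun t : ℝ => Real.exp (-(g - t) ^ 2 / 2) := by
    have := hint.comp_sub_right g
    refine this.congr (Filter.Eventually.of_forall fun t => ?_)
    simp only
    congr 1
    ring
  rw [intervalIntegral.integral_of_le hab]
  have h1 : ∫ t in Ioc a b, Real.exp (-(g - t) ^ 2 / 2) ≤ ∫ t, Real.exp (-(g - t) ^ 2 / 2) :=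
    setIntegral_le_integral hint2 (Filter.Eventually.of_forall fun t => (Real.exp_pos _).le)
  refine h1.trans ?_
  have h2 : ∫ t, Real.exp (-(g - t) ^ 2 / 2) = ∫ t : ℝ, Real.exp (-(1 / 2) * (t - g) ^ 2) := by
    congr 1
    funext t
    congr 1
    ring
  rw [h2, integral_sub_right_eq_self (fun t : ℝ => Real.exp (-(1 / 2) * t ^ 2)) g,
    integral_gaussian]
  have h3 : Real.pi / (1 / 2) ≤ 3 ^ 2 := by
    have := Real.pi_lt_d2
    linarith
  rw [Real.sqrt_le_left (by norm_num)]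
  exact h3

end H429.GS
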