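import Pool.Agent.H429R5.GS.I
import Pool.Agent.H429R5.GS.J0

/-!
Moments of the zeta function by the sum over the negative values at the Gram points.
-/

open Complex Filter Topology Set Metric MeasureTheory

namespace H429.GS

open H370.DL H429.GP H429.MG

theorem sum_pow_le {J : Finset ℝ} {w f : ℝ → ℝ} {p K : ℝ} (hp : 1 ≤ p) (hw : ∀ g, 0 ≤ w g)
    (hf : ∀ g, 0 ≤ f g) (hK : ∑ g ∈ J, w g ≤ K) :
    (∑ g ∈ J, w g * f g) ^ p ≤ K ^ (p - 1) * ∑ g ∈ J, w g * f g ^ p := by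
  have hp0 : 0 < p := by linarith
  have h1 := Real.inner_le_weight_mul_Lp_of_nonneg J hp w f hw hf
  have hs0 : 0 ≤ ∑ g ∈ J, w g := Finset.sum_nonneg fun g _ => hw g
  have hs1 : 0 ≤ ∑ g ∈ J, w g * f g ^ p :=
    Finset.sum_nonneg fun g _ => mul_nonneg (hw g) (Real.rpow_nonneg (hf g) p)
  have hs2 : 0 ≤ ∑ g ∈ J, w g * f g := Finset.sum_nonneg fun g _ => mul_nonneg (hw g) (hf g)
  have h2 := Real.rpow_le_rpow hs2 h1 hp0.le
  have e1 : ((∑ g ∈ J, w g) ^ (1 - p⁻¹)) ^ p = (∑ g ∈ J, w g) ^ (p - 1) := by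
    rw [← Real.rpow_mul hs0]
    congr 1
    field_simp
  have e2 : ((∑ g ∈ J, w g * f g ^ p) ^ p⁻¹) ^ p = ∑ g ∈ J, w g * f g ^ p := by
    rw [← Real.rpow_mul hs1, inv_mul_cancel₀ hp0.ne', Real.rpow_one]
  rw [Real.mul_rpow (Real.rpow_nonneg hs0 _) (Real.rpow_nonneg hs1 _), e1, e2] at h2
  refine h2.trans ?_
  apply mul_le_mul_of_nonneg_right _ hs1
  exact Real.rpow_le_rpow hs0 hK (by linarith)

theorem upper_pt3 {p : ℝ} (hp : 1 ≤ p) {ω : ℂ} (hω : ‖ω‖ = 1) : ∃ C : ℝ, 0 < C ∧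
    ∃ Y1 : ℝ, 37 ≤ Y1 ∧ ∀ t : ℝ, Y1 ≤ t → ∀ S : Finset ℝ, (∀ g ∈ S, X1 ⟨1 / 2, g⟩ = ω ^ 2) →
    (∀ g : ℝ, |g - t| ≤ 6 * √(ll t) → X1 ⟨1 / 2, g⟩ = ω ^ 2 →
      ((starRingEnd ℂ) ω * LL ⟨1 / 2, g⟩).re < 0 → g ∈ S) →
    V t ^ p ≤ C * (ll t ^ p + ll t ^ (p - 1) *
      ∑ g ∈ S, Real.exp (-(g - t) ^ 2 / 2) * V g ^ p) := by
  obtain ⟨C0, hC01, hC0⟩ := logDeriv_X1
  obtain ⟨C, hC, h⟩ := local_transfer3 prim1 haa1 (C0 := C0) (by linarith)
    (fun y hy => hC0 ⟨1 / 2, y⟩ (by norm_num) (by norm_num) hy)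
    (fun y hy => im_logDeriv_X1 hy) hω
  obtain ⟨C1, hC1, Y1, hY1, hcnt⟩ := gauss_count
  have hp0 : 0 < p := by linarith
  refine ⟨2 ^ p * (C ^ p + C ^ p * C1 ^ (p - 1)), by positivity, Y1, hY1, ?_⟩
  intro t ht S hSX hS
  have ht0 : 0 ≤ t := by linarith
  have hat : |t| = t := abs_of_nonneg ht0
  have hlt : 1 + Real.log (((1 : ℕ) : ℝ) * (1 + |t|)) = ll t := by
    rw [hat, Nat.cast_one, one_mul]; rfl
  have hl1 := one_le_ll ht0
  have h1 := h S hSX t (by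
    rw [hlt]
    exact hS)
  rw [hlt] at h1
  set ℓ : ℝ := ll t with hℓ
  set J : Finset ℝ := S.filter (fun g => |g - t| ≤ 6 * √ℓ) with hJ
  have hcnt' := hcnt ω hω t ht J (fun g hg => by
    rw [hJ, Finset.mem_filter] at hg
    exact ⟨hg.2, hSX g hg.1⟩)
  have hnn : ∀ u : ℝ, 0 ≤ V u ^ p := fun u => Real.rpow_nonneg (V_nonneg u) p
  set N : ℝ := ∑ g ∈ J, Real.exp (-(g - t) ^ 2 / 2) * V g with hN
  have hN0 : 0 ≤ N := Finset.sum_nonneg fun g _ => mul_nonneg (Real.exp_pos _).le (V_nonneg g)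
  have hNe : ∑ g ∈ J, ‖DirichletCharacter.LFunction (1 : DirichletCharacter ℂ 1) ⟨1 / 2, g⟩‖ *
      Real.exp (-(g - t) ^ 2 / 2) = N := by
    rw [hN]
    apply Finset.sum_congr rfl
    intro g _
    rw [mul_comm]
    rfl
  rw [hNe] at h1
  have h2 : V t ≤ C * ℓ + C * N := by
    calc V t ≤ C * ℓ * (1 + N / ℓ) := h1
      _ = _ := by field_simp
  have h3 := sum_pow_le (J := J) (w := fun g => Real.exp (-(g - t) ^ 2 / 2)) (f := V) hp
    (fun g => (Real.exp_pos _).le) V_nonneg hcnt'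
  have h4 : ∑ g ∈ J, Real.exp (-(g - t) ^ 2 / 2) * V g ^ p ≤
      ∑ g ∈ S, Real.exp (-(g - t) ^ 2 / 2) * V g ^ p :=
    Finset.sum_le_sum_of_subset_of_nonneg (Finset.filter_subset _ _)
      (fun g _ _ => mul_nonneg (Real.exp_pos _).le (hnn g))
  set Sg : ℝ := ∑ g ∈ S, Real.exp (-(g - t) ^ 2 / 2) * V g ^ p with hSg
  have hSg0 : 0 ≤ Sg := Finset.sum_nonneg fun g _ => mul_nonneg (Real.exp_pos _).le (hnn g)
  have hlp : 0 ≤ ℓ ^ (p - 1) := Real.rpow_nonneg (by linarith) _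
  have hlp' : 0 ≤ ℓ ^ p := Real.rpow_nonneg (by linarith) _
  have hC1p : 0 ≤ C1 ^ (p - 1) := Real.rpow_nonneg hC1.le _
  have h5 : N ^ p ≤ C1 ^ (p - 1) * ℓ ^ (p - 1) * Sg := by
    refine h3.trans ?_
    rw [Real.mul_rpow hC1.le (by linarith)]
    exact mul_le_mul_of_nonneg_left h4 (by positivity)
  have hCp : 0 ≤ C ^ p := Real.rpow_nonneg hC.le _
  calc V t ^ p ≤ (C * ℓ + C * N) ^ p := Real.rpow_le_rpow (V_nonneg t) h2 hp0.le
    _ ≤ 2 ^ p * ((C * ℓ) ^ p + (C * N) ^ p) := two_pow_le (by positivity) (by positivity) hp0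
    _ = 2 ^ p * (C ^ p * ℓ ^ p + C ^ p * N ^ p) := by
      rw [Real.mul_rpow hC.le (by linarith), Real.mul_rpow hC.le hN0]
    _ ≤ 2 ^ p * (C ^ p * ℓ ^ p + C ^ p * (C1 ^ (p - 1) * ℓ ^ (p - 1) * Sg)) := by gcongr
    _ ≤ _ := by
      have e1 : 0 ≤ 2 ^ p * (C ^ p * C1 ^ (p - 1) * ℓ ^ p) := by positivity
      have e2 : 0 ≤ 2 ^ p * (C ^ p * (ℓ ^ (p - 1) * Sg)) := by positivity
      have e3 : 2 ^ p * (C ^ p + C ^ p * C1 ^ (p - 1)) * (ℓ ^ p + ℓ ^ (p - 1) * Sg) =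
          2 ^ p * (C ^ p * ℓ ^ p + C ^ p * (C1 ^ (p - 1) * ℓ ^ (p - 1) * Sg)) +
          2 ^ p * (C ^ p * C1 ^ (p - 1) * ℓ ^ p) + 2 ^ p * (C ^ p * (ℓ ^ (p - 1) * Sg)) := by ring
      rw [e3]
      linarith

theorem upper_int3 {p : ℝ} (hp : 1 ≤ p) {ω : ℂ} (hω : ‖ω‖ = 1) : ∃ C : ℝ, 0 < C ∧
    ∃ Y1 : ℝ, 37 ≤ Y1 ∧ ∀ T : ℝ, Y1 ≤ T → ∀ S : Finset ℝ, (∀ g ∈ S, X1 ⟨1 / 2, g⟩ = ω ^ 2) →
    (∀ g : ℝ, 0 ≤ g → g ≤ 2 * T → X1 ⟨1 / 2, g⟩ = ω ^ 2 →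
      ((starRingEnd ℂ) ω * LL ⟨1 / 2, g⟩).re < 0 → g ∈ S) →
    ∫ t in Y1..T, V t ^ p ≤ C * (ll T ^ p * T + ll T ^ (p - 1) * ∑ g ∈ S, V g ^ p) := by
  obtain ⟨C, hC, Y1, hY1, h⟩ := upper_pt3 hp hω
  have hp0 : 0 < p := by linarith
  refine ⟨C * 3, by positivity, Y1, hY1, ?_⟩
  intro T hT S hSX hS
  have hcont := continuous_Vp hp0
  have hT0 : 0 ≤ T := by linarith
  have hlT := one_le_ll hT0
  have hnn : ∀ u : ℝ, 0 ≤ V u ^ p := fun u => Real.rpow_nonneg (V_nonneg u) p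
  have hlp0 : 0 ≤ ll T ^ p := Real.rpow_nonneg (by linarith) p
  have hlp1 : 0 ≤ ll T ^ (p - 1) := Real.rpow_nonneg (by linarith) _
  have hpt : ∀ t ∈ Icc Y1 T, V t ^ p ≤ C * (ll T ^ p + ll T ^ (p - 1) *
      ∑ g ∈ S, Real.exp (-(g - t) ^ 2 / 2) * V g ^ p) := by
    intro t ht
    have ht0 : 0 ≤ t := by linarith [ht.1]
    have hllt := one_le_ll ht0
    have hltT : ll t ≤ ll T := ll_mono ht0 ht.2
    have hwin : 6 * √(ll t) ≤ t := by
      have h1 : √(ll t) ≤ t / 6 := by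
        rw [Real.sqrt_le_left (by linarith)]
        unfold ll
        have := Real.log_le_sub_one_of_pos (show 0 < 1 + t by linarith)
        nlinarith [ht.1]
      linarith
    have h1 := h t ht.1 S hSX (by
      intro g hg hX hneg
      obtain ⟨a1, a2⟩ := abs_le.mp hg
      exact hS g (by linarith) (by linarith [ht.2]) hX hneg)
    refine h1.trans ?_
    apply mul_le_mul_of_nonneg_left _ hC.le
    have e1 : ll t ^ p ≤ ll T ^ p := Real.rpow_le_rpow (by linarith) hltT hp0.le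
    have e2 : ll t ^ (p - 1) ≤ ll T ^ (p - 1) := Real.rpow_le_rpow (by linarith) hltT (by linarith)
    have e3 : 0 ≤ ∑ g ∈ S, Real.exp (-(g - t) ^ 2 / 2) * V g ^ p :=
      Finset.sum_nonneg fun g _ => mul_nonneg (Real.exp_pos _).le (hnn g)
    exact add_le_add e1 (mul_le_mul_of_nonneg_right e2 e3)
  have hcg : ∀ g : ℝ, Continuous fun t : ℝ => Real.exp (-(g - t) ^ 2 / 2) * V g ^ p := by
    intro g
    fun_prop
  have hcs : Continuous fun t : ℝ => ∑ g ∈ S, Real.exp (-(g - t) ^ 2 / 2) * V g ^ p :=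
    continuous_finset_sum _ fun g _ => hcg g
  have hint : ∫ t in Y1..T, ∑ g ∈ S, Real.exp (-(g - t) ^ 2 / 2) * V g ^ p ≤
      3 * ∑ g ∈ S, V g ^ p := by
    rw [intervalIntegral.integral_finsetSum (fun g _ => (hcg g).intervalIntegrable _ _),
      Finset.mul_sum]
    apply Finset.sum_le_sum
    intro g _
    rw [intervalIntegral.integral_mul_const]
    exact mul_le_mul_of_nonneg_right (gauss_int g Y1 T hT) (hnn g)
  have hSg0 : 0 ≤ ∑ g ∈ S, V g ^ p := Finset.sum_nonneg fun g _ => hnn g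
  have hI : IntervalIntegrable (fun t : ℝ => ll T ^ (p - 1) *
      ∑ g ∈ S, Real.exp (-(g - t) ^ 2 / 2) * V g ^ p) volume Y1 T :=
    (hcs.intervalIntegrable _ _).const_mul _
  calc ∫ t in Y1..T, V t ^ p
      ≤ ∫ t in Y1..T, C * (ll T ^ p + ll T ^ (p - 1) *
          ∑ g ∈ S, Real.exp (-(g - t) ^ 2 / 2) * V g ^ p) := by
        refine intervalIntegral.integral_mono_on hT (hcont.intervalIntegrable _ _) ?_ hpt
        exact (continuous_const.mul (continuous_const.add (continuous_const.mul hcs))).intervalIntegrable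
          _ _
    _ = C * ((T - Y1) * ll T ^ p + ll T ^ (p - 1) *
          ∫ t in Y1..T, ∑ g ∈ S, Real.exp (-(g - t) ^ 2 / 2) * V g ^ p) := by
        rw [intervalIntegral.integral_const_mul,
          intervalIntegral.integral_add intervalIntegrable_const hI,
          intervalIntegral.integral_const, smul_eq_mul, intervalIntegral.integral_const_mul]
    _ ≤ C * (T * ll T ^ p + ll T ^ (p - 1) * (3 * ∑ g ∈ S, V g ^ p)) := by
        apply mul_le_mul_of_nonneg_left _ hC.le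
        apply add_le_add
        · exact mul_le_mul_of_nonneg_right (by linarith) hlp0
        · exact mul_le_mul_of_nonneg_left hint hlp1
    _ ≤ _ := by
        have q1 : 0 ≤ C * (ll T ^ p * T) := by positivity
        nlinarith

end H429.GS
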